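import Mathlib

/-!
Elementary facts on the exponential map of the circle, square summable functions and orbits.
-/

set_option autoImplicit false

namespace Pool.Agent.LibCod83

universe u v w

/-- the character `t ↦ exp(2πit)`. -/
noncomputable def ex (t : ℝ) : ℂ := Complex.exp (2 * Real.pi * t * Complex.I)

lemma ex_eq (t : ℝ) : ex t = Complex.exp (((2 * Real.pi * t : ℝ) : ℂ) * Complex.I) := by
  rw [ex]
  push_cast
  rfl

lemma norm_ex (t : ℝ) : ‖ex t‖ = 1 := by
  rw [ex_eq, Complex.norm_exp_ofReal_mul_I]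

lemma ex_add (s t : ℝ) : ex (s + t) = ex s * ex t := by
  rw [ex, ex, ex, ← Complex.exp_add]
  congr 1
  push_cast
  ring

lemma ex_neg (t : ℝ) : ex (-t) = (ex t)⁻¹ := by
  rw [ex, ex, ← Complex.exp_neg]
  congr 1
  push_cast
  ring

lemma ex_int (n : ℤ) : ex (n : ℝ) = 1 := by
  rw [ex, Complex.exp_eq_one_iff]
  exact ⟨n, by push_cast; ring⟩

lemma exists_int_of_ex_eq_one (t : ℝ) (h : ex t = 1) : ∃ n : ℤ, t = n := by
  rw [ex, Complex.exp_eq_one_iff] at h
  obtain ⟨n, hn⟩ := h
  refine ⟨n, ?_⟩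
  have h1 : (2 * Real.pi * Complex.I : ℂ) ≠ 0 := by
    simp [Real.pi_ne_zero, Complex.I_ne_zero]
  have h2 : ((t : ℂ) - (n : ℂ)) * (2 * Real.pi * Complex.I) = 0 := by
    linear_combination hn
  have h3 : (t : ℂ) - (n : ℂ) = 0 := (mul_eq_zero.1 h2).resolve_right h1
  have h4 : (t : ℂ) = ((n : ℝ) : ℂ) := by
    rw [sub_eq_zero] at h3
    rw [h3]
    simp
  exact_mod_cast h4

/-- `|exp(2πit) - 1| ≤ 2π|t|`. -/
lemma norm_ex_sub_one (t : ℝ) : ‖ex t - 1‖ ≤ 2 * Real.pi * |t| := by
  have h := Real.norm_exp_I_mul_ofReal_sub_one_le (x := 2 * Real.pi * t)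
  rw [ex_eq, mul_comm]
  refine h.trans (le_of_eq ?_)
  rw [Real.norm_eq_abs, abs_mul, abs_of_pos (by positivity)]

/-- every complex number of modulus one has a small logarithm. -/
lemma exists_log (z : ℂ) (hz : ‖z‖ = 1) : ∃ t : ℝ, ex t = z ∧ |t| ≤ ‖z - 1‖ := by
  refine ⟨z.arg / (2 * Real.pi), ?_, ?_⟩
  · rw [ex_eq]
    have h1 : 2 * Real.pi * (z.arg / (2 * Real.pi)) = z.arg := by
      field_simp
    rw [h1]
    have h2 := Complex.norm_mul_exp_arg_mul_I z
    rw [hz, Complex.ofReal_one, one_mul] at h2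
    exact h2
  · have hz0 : z = Complex.exp (z.arg * Complex.I) := by
      have h2 := Complex.norm_mul_exp_arg_mul_I z
      rw [hz, Complex.ofReal_one, one_mul] at h2
      exact h2.symm
    have h3 : ‖z - 1‖ = 2 * |Real.sin (z.arg / 2)| := by
      conv_lhs => rw [hz0]
      have h4 := Complex.norm_exp_I_mul_ofReal_sub_one (x := z.arg)
      rw [mul_comm, h4, norm_mul, Real.norm_eq_abs, Real.norm_eq_abs, abs_of_pos (two_pos)]
    rw [h3, abs_div, abs_of_pos (by positivity : (0 : ℝ) < 2 * Real.pi)]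
    have h5 : |z.arg / 2| ≤ Real.pi / 2 := by
      rw [abs_div, abs_of_pos (two_pos : (0 : ℝ) < 2)]
      have := Complex.abs_arg_le_pi z
      linarith
    have h6 := Real.mul_abs_le_abs_sin h5
    rw [abs_div, abs_of_pos (two_pos : (0 : ℝ) < 2)] at h6
    have h7 : |z.arg| / (2 * Real.pi) ≤ 2 * (2 / Real.pi * (|z.arg| / 2)) := by
      have hpi := Real.pi_pos
      rw [div_le_iff₀ (by positivity)]
      have e : 2 * (2 / Real.pi * (|z.arg| / 2)) * (2 * Real.pi) = 4 * |z.arg| := by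
        field_simp
        ring
      rw [e]
      have := abs_nonneg z.arg
      linarith
    linarith

/-- a square summable function with integer values has finite support. -/
lemma finite_support_of_int {X : Type u} (f : X → ℝ) (hf : Summable fun x => |f x| ^ 2)
    (hint : ∀ x, ∃ n : ℤ, f x = n) : {x | f x ≠ 0}.Finite := by
  have h1 := hf.tendsto_cofinite_zero
  have h2 : ∀ᶠ x in Filter.cofinite, |f x| ^ 2 < 1 := h1.eventually (gt_mem_nhds (by norm_num))
  rw [Filter.eventually_cofinite] at h2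
  refine h2.subset fun x hx hlt => hx ?_
  obtain ⟨n, hn⟩ := hint x
  rw [hn] at hlt ⊢
  have h3 : |(n : ℝ)| < 1 := by
    by_contra h
    push Not at h
    nlinarith
  have h4 : |n| < 1 := by exact_mod_cast h3
  have h5 : n = 0 := Int.abs_lt_one_iff.1 h4
  rw [h5]
  simp

/-- a square summable function is small somewhere on every infinite set. -/
lemma exists_small {X : Type u} (f : X → ℂ) (hf : Summable fun x => ‖f x‖ ^ 2) (S : Set X)
    (hS : S.Infinite) (ε : ℝ) (hε : 0 < ε) : ∃ x ∈ S, ‖f x‖ < ε := by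
  have h1 := hf.tendsto_cofinite_zero
  have h2 : ∀ᶠ x in Filter.cofinite, ‖f x‖ ^ 2 < ε ^ 2 :=
    h1.eventually (gt_mem_nhds (by positivity))
  rw [Filter.eventually_cofinite] at h2
  by_contra hcon
  push Not at hcon
  refine hS (h2.subset fun x hx hlt => ?_)
  exact absurd (lt_of_pow_lt_pow_left₀ 2 hε.le hlt) (not_lt.2 (hcon x hx))

/-- `φ` square summable, `|1 - φ|` invariant, infinite orbits: then `|1 - φ| = 1`. -/
lemma norm_one_sub {G : Type v} [Group G] {X : Type u} [MulAction G X] (φ : X → ℂ)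
    (hφ : Summable fun x => ‖φ x‖ ^ 2) (horb : ∀ x : X, (MulAction.orbit G x).Infinite)
    (hinv : ∀ (g : G) (x : X), ‖1 - φ (g⁻¹ • x)‖ = ‖1 - φ x‖) (x : X) : ‖1 - φ x‖ = 1 := by
  have h0 : |‖1 - φ x‖ - 1| = 0 := by
    refine le_antisymm (le_of_forall_pos_le_add fun ε hε => ?_) (abs_nonneg _)
    obtain ⟨_, ⟨g, rfl⟩, hg⟩ := exists_small φ hφ _ (horb x) ε hε
    have h1 := hinv g⁻¹ x
    rw [inv_inv] at h1
    have h2 : (fun m : G => m • x) g = g • x := rfl
    rw [h2] at hg
    rw [← h1, zero_add]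
    have h3 := abs_norm_sub_norm_le (1 - φ (g • x)) 1
    rw [norm_one] at h3
    refine h3.trans ?_
    have h4 : (1 - φ (g • x) - 1 : ℂ) = -φ (g • x) := by ring
    rw [h4, norm_neg]
    exact hg.le
  have := abs_eq_zero.1 h0
  linarith

end Pool.Agent.LibCod83
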