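import Pool.Agent.LibCod83.Defs

/-!
Shapiro's lemma and Poincaré duality.
-/

set_option autoImplicit false

namespace Pool.Agent.LibCod83

open CategoryTheory Representation

variable {G : Type} [Group G]

/-- the cosets of the inverses. -/
noncomputable def cosL (A : Subgroup G) : MonoidAlgebra ℤ G →ₗ[ℤ] MonoidAlgebra ℤ (G ⧸ A) :=
  MonoidAlgebra.mapDomainLinearMap ℤ ℤ (fun h : G => (QuotientGroup.mk h⁻¹ : G ⧸ A))

lemma cosL_single (A : Subgroup G) (h : G) (r : ℤ) :
    cosL A (MonoidAlgebra.single h r) = MonoidAlgebra.single (QuotientGroup.mk h⁻¹ : G ⧸ A) r := by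
  simp [cosL]

/-- the comparison map. -/
noncomputable def indTo (A : Subgroup G) :
    IndV A.subtype (Representation.trivial ℤ A ℤ) →ₗ[ℤ] MonoidAlgebra ℤ (G ⧸ A) :=
  Coinvariants.lift _ ((TensorProduct.rid ℤ _).toLinearMap ∘ₗ (cosL A).rTensor ℤ) (by
    intro s
    refine TensorProduct.ext' fun x y => ?_
    induction x using MonoidAlgebra.induction_linear with
    | zero => simp
    | add a b ha hb => rw [TensorProduct.add_tmul, map_add, map_add, ha, hb]
    | single h r =>
      simp [cosL_single])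

lemma indTo_mk (A : Subgroup G) (h : G) (r : ℤ) :
    indTo A (IndV.mk A.subtype (Representation.trivial ℤ A ℤ) h r) =
      MonoidAlgebra.single (QuotientGroup.mk h⁻¹ : G ⧸ A) r := by
  show (TensorProduct.rid ℤ _) ((cosL A).rTensor ℤ ((MonoidAlgebra.single h (1 : ℤ)) ⊗ₜ[ℤ] r)) = _
  rw [LinearMap.rTensor_tmul, TensorProduct.rid_tmul, cosL_single]
  simp

/-- the inverse of the comparison map. -/
noncomputable def indInv (A : Subgroup G) :
    MonoidAlgebra ℤ (G ⧸ A) →ₗ[ℤ] IndV A.subtype (Representation.trivial ℤ A ℤ) :=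
  (Finsupp.linearCombination ℤ (fun x : G ⧸ A =>
    IndV.mk A.subtype (Representation.trivial ℤ A ℤ) (Quotient.out x)⁻¹ (1 : ℤ))) ∘ₗ
      (MonoidAlgebra.coeffLinearEquiv ℤ).toLinearMap

lemma indInv_single (A : Subgroup G) (x : G ⧸ A) (r : ℤ) :
    indInv A (MonoidAlgebra.single x r) =
      IndV.mk A.subtype (Representation.trivial ℤ A ℤ) (Quotient.out x)⁻¹ r := by
  have h1 : (MonoidAlgebra.coeffLinearEquiv ℤ) (MonoidAlgebra.single x r) =
      Finsupp.single x r := rfl
  show Finsupp.linearCombination ℤ _ ((MonoidAlgebra.coeffLinearEquiv ℤ)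
    (MonoidAlgebra.single x r)) = _
  rw [h1, Finsupp.linearCombination_single, ← map_smul, smul_eq_mul, mul_one]

/-- translating by the subgroup does not change the class. -/
lemma mk_mul (A : Subgroup G) (a : A) (h : G) (r : ℤ) :
    IndV.mk A.subtype (Representation.trivial ℤ A ℤ) ((a : G) * h) r =
      IndV.mk A.subtype (Representation.trivial ℤ A ℤ) h r := by
  have h1 := Coinvariants.mk_self_apply
    (Representation.tprod ((leftRegular ℤ G).comp A.subtype) (Representation.trivial ℤ A ℤ)) a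
    ((MonoidAlgebra.single h (1 : ℤ)) ⊗ₜ[ℤ] r)
  refine Eq.trans ?_ h1
  show Coinvariants.mk _ ((MonoidAlgebra.single ((a : G) * h) (1 : ℤ)) ⊗ₜ[ℤ] r) = _
  congr 1
  simp

/-- the equivalence. -/
noncomputable def indEquiv (A : Subgroup G) :
    IndV A.subtype (Representation.trivial ℤ A ℤ) ≃ₗ[ℤ] MonoidAlgebra ℤ (G ⧸ A) :=
  LinearEquiv.ofLinearMap (indTo A) (indInv A)
    (by
      refine LinearMap.ext fun f => ?_
      induction f using MonoidAlgebra.induction_linear with
      | zero => simp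
      | add a b ha hb => rw [map_add, ha, hb, map_add]
      | single x r =>
        show indTo A (indInv A _) = _
        rw [indInv_single, indTo_mk, inv_inv]
        congr 1
        exact QuotientGroup.out_eq' x)
    (by
      refine IndV.hom_ext _ _ fun h => LinearMap.ext fun r => ?_
      show indInv A (indTo A (IndV.mk A.subtype _ h r)) = IndV.mk A.subtype _ h r
      rw [indTo_mk, indInv_single]
      have h1 : ((Quotient.out (QuotientGroup.mk h⁻¹ : G ⧸ A))⁻¹ * h⁻¹) ∈ A := by
        rw [← QuotientGroup.eq]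
        exact QuotientGroup.out_eq' _
      have h2 : (Quotient.out (QuotientGroup.mk h⁻¹ : G ⧸ A))⁻¹ =
          ((⟨_, h1⟩ : A) : G) * h := by
        show _ = (Quotient.out (QuotientGroup.mk h⁻¹ : G ⧸ A))⁻¹ * h⁻¹ * h
        group
      rw [h2, mk_mul])

/-- the representation induced from the trivial one is the permutation representation. -/
theorem ind_trivial_iso (A : Subgroup G) :
    Nonempty (Rep.ind A.subtype (Rep.trivial ℤ A ℤ) ≅ Rep.ofMulAction ℤ G (G ⧸ A)) := by
  refine ⟨Rep.mkIso (.mk (indEquiv A) fun g => ?_)⟩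
  refine IndV.hom_ext _ _ fun h => LinearMap.ext fun r => ?_
  show indTo A ((Representation.ind A.subtype (Representation.trivial ℤ A ℤ) g)
    (IndV.mk A.subtype _ h r)) = Representation.ofMulAction ℤ G (G ⧸ A) g
      (indTo A (IndV.mk A.subtype _ h r))
  rw [ind_mk, indTo_mk, indTo_mk, ofMulAction_single]
  congr 1
  rw [mul_inv_rev, inv_inv]
  rfl

/-- `H_{n-k}(A; ℤ) ≠ 0` gives `H^k(G; ℤ[G/A]) ≠ 0`. -/
theorem nontrivial_of_pd {n : ℕ} (hG : IsPD G n) (A : Subgroup G) (k : ℕ) (hk : k ≤ n)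
    (h : Nontrivial (groupHomology (Rep.trivial ℤ A ℤ) (n - k))) :
    Nontrivial (groupCohomology (Rep.ofMulAction ℤ G (G ⧸ A)) k) := by
  classical
  obtain ⟨e1⟩ := hG (Rep.ofMulAction ℤ G (G ⧸ A)) k hk
  obtain ⟨e2⟩ := ind_trivial_iso A
  have e3 : groupHomology (Rep.ind A.subtype (Rep.trivial ℤ A ℤ)) (n - k) ≅
      groupHomology (Rep.ofMulAction ℤ G (G ⧸ A)) (n - k) :=
    (groupHomology.functor ℤ G (n - k)).mapIso e2
  have e4 : groupHomology (Rep.ind A.subtype (Rep.trivial ℤ A ℤ)) (n - k) ≅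
      groupHomology (Rep.trivial ℤ A ℤ) (n - k) :=
    groupHomology.indIso A (Rep.trivial ℤ A ℤ) (n - k)
  have e5 : groupCohomology (Rep.ofMulAction ℤ G (G ⧸ A)) k ≅
      groupHomology (Rep.trivial ℤ A ℤ) (n - k) := e1 ≪≫ e3.symm ≪≫ e4
  exact e5.toLinearEquiv.toEquiv.nontrivial

end Pool.Agent.LibCod83
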