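import Mathlib

/-!
Low degree cohomology of permutation modules in terms of finitely supported functions.
-/

set_option autoImplicit false

namespace Pool.Agent.LibCod83

variable {G : Type} [Group G] {X : Type} [MulAction G X]

lemma act_coeff (g : G) (f : MonoidAlgebra ℤ X) (x : X) :
    (((Rep.ofMulAction ℤ G X).ρ g f : MonoidAlgebra ℤ X)).coeff x = f.coeff (g⁻¹ • x) :=
  Representation.coeff_ofMulAction g f x

/-- degree zero. -/
theorem not_nontrivial_zero (horb : ∀ x : X, (MulAction.orbit G x).Infinite) :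
    ¬ Nontrivial (groupCohomology (Rep.ofMulAction ℤ G X) 0) := by
  rw [not_nontrivial_iff_subsingleton]
  have key : ∀ x : groupCohomology (Rep.ofMulAction ℤ G X) 0, x = 0 := by
    intro x
    refine groupCohomology.H0_induction_on (Rep.ofMulAction ℤ G X)
      (C := fun x => x = 0) x fun v => ?_
    have hv : v = 0 := by
      apply Subtype.ext
      have h1 : ∀ g : G, (Rep.ofMulAction ℤ G X).ρ g v.1 = v.1 := v.2
      show (v.1 : MonoidAlgebra ℤ X) = 0
      ext x
      by_contra hx
      have h2 : (MulAction.orbit G x) ⊆ ((v.1 : MonoidAlgebra ℤ X).coeff.support : Set X) := by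
        rintro _ ⟨g, rfl⟩
        rw [Finset.mem_coe, Finsupp.mem_support_iff]
        have h3 := act_coeff g v.1 (g • x)
        rw [h1, inv_smul_smul] at h3
        show (v.1 : MonoidAlgebra ℤ X).coeff (g • x) ≠ 0
        rw [h3]
        exact hx
      exact horb x ((Finset.finite_toSet _).subset h2)
    rw [hv, map_zero]
  exact ⟨fun a b => by rw [key a, key b]⟩

/-- degree one. -/
theorem not_nontrivial_one
    (H : ∀ z : G → X →₀ ℤ, (∀ (g h : G) (x : X), z (g * h) x = z g x + z h (g⁻¹ • x)) →
      ∃ m : X →₀ ℤ, ∀ (g : G) (x : X), z g x = m (g⁻¹ • x) - m x) :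
    ¬ Nontrivial (groupCohomology (Rep.ofMulAction ℤ G X) 1) := by
  rw [not_nontrivial_iff_subsingleton]
  have key : ∀ x : groupCohomology (Rep.ofMulAction ℤ G X) 1, x = 0 := by
    intro x
    refine groupCohomology.H1_induction_on (A := Rep.ofMulAction ℤ G X)
      (C := fun x => x = 0) x fun f => ?_
    rw [groupCohomology.H1π_eq_zero_iff]
    have hf := (groupCohomology.mem_cocycles₁_iff f.1).1 f.2
    obtain ⟨m, hm⟩ := H (fun g => (f g : MonoidAlgebra ℤ X).coeff) (fun g h x => by
      have h1 := hf g h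
      have h2 := congrArg (fun a : MonoidAlgebra ℤ X => a.coeff x) h1
      simp only [MonoidAlgebra.coeff_add, Finsupp.add_apply] at h2
      rw [act_coeff] at h2
      rw [add_comm] at h2
      exact h2)
    refine ⟨MonoidAlgebra.ofCoeff m, ?_⟩
    funext g
    show (Rep.ofMulAction ℤ G X).ρ g (MonoidAlgebra.ofCoeff m) - MonoidAlgebra.ofCoeff m = f g
    ext x
    have h3 := hm g x
    simp only [MonoidAlgebra.coeff_sub, Finsupp.sub_apply]
    rw [act_coeff]
    exact h3.symm
  exact ⟨fun a b => by rw [key a, key b]⟩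

/-- degree two. -/
theorem not_nontrivial_two
    (H : ∀ z : G → G → X →₀ ℤ, (∀ (g h k : G) (x : X),
        z h k (g⁻¹ • x) - z (g * h) k x + z g (h * k) x - z g h x = 0) →
      ∃ m : G → X →₀ ℤ, ∀ (g h : G) (x : X), z g h x = m h (g⁻¹ • x) - m (g * h) x + m g x) :
    ¬ Nontrivial (groupCohomology (Rep.ofMulAction ℤ G X) 2) := by
  rw [not_nontrivial_iff_subsingleton]
  have key : ∀ x : groupCohomology (Rep.ofMulAction ℤ G X) 2, x = 0 := by
    intro x
    refine groupCohomology.H2_induction_on (A := Rep.ofMulAction ℤ G X)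
      (C := fun x => x = 0) x fun f => ?_
    rw [groupCohomology.H2π_eq_zero_iff]
    have hf := (groupCohomology.mem_cocycles₂_def f.1).1 f.2
    obtain ⟨m, hm⟩ := H (fun g h => (f (g, h) : MonoidAlgebra ℤ X).coeff) (fun g h k x => by
      have h1 := hf g h k
      have h2 := congrArg (fun a : MonoidAlgebra ℤ X => a.coeff x) h1
      simp only [MonoidAlgebra.coeff_add, MonoidAlgebra.coeff_sub, Finsupp.add_apply,
        Finsupp.sub_apply, MonoidAlgebra.coeff_zero, Finsupp.zero_apply] at h2
      rw [act_coeff] at h2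
      exact h2)
    refine ⟨fun g => MonoidAlgebra.ofCoeff (m g), ?_⟩
    funext ⟨g, h⟩
    show (Rep.ofMulAction ℤ G X).ρ g (MonoidAlgebra.ofCoeff (m h)) -
      MonoidAlgebra.ofCoeff (m (g * h)) + MonoidAlgebra.ofCoeff (m g) = f (g, h)
    ext x
    have h3 := hm g h x
    simp only [MonoidAlgebra.coeff_sub, MonoidAlgebra.coeff_add, Finsupp.add_apply,
      Finsupp.sub_apply]
    rw [act_coeff]
    exact h3.symm
  exact ⟨fun a b => by rw [key a, key b]⟩

end Pool.Agent.LibCod83
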