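import Pool.Agent.LibZIS.Two
import Pool.Agent.LibZIS.Walls

/-!
Twisted monomial representations and Poincaré duality groups: definitions.
-/

set_option autoImplicit false

namespace Pool.Agent.LibCod83

open Pool.Agent.LibZIS

universe u v w

/-- `G` satisfies Poincaré duality in dimension `n`: for every `ℤG`-module `M` and every `k ≤ n`
the groups `H^k(G; M)` and `H_{n-k}(G; M)` are isomorphic. -/
def IsPD (G : Type) [Group G] (n : ℕ) : Prop :=
  ∀ (M : Rep.{0} ℤ G) (k : ℕ), k ≤ n → Nonempty (groupCohomology M k ≅ groupHomology M (n - k))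

/-- a unimodular one-cocycle of `G` with values in the functions on the `G`-set `X`. -/
structure UCoc (G : Type u) [Group G] (X : Type w) [MulAction G X] where
  /-- the values -/
  σ : G → X → ℂ
  norm : ∀ g x, ‖σ g x‖ = 1
  mul : ∀ g h x, σ (g * h) x = σ g x * σ h (g⁻¹ • x)

end Pool.Agent.LibCod83
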