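import Pool.Agent.LibCod83.Defs

/-!
Free abelian groups are amenable.
-/

set_option autoImplicit false

namespace Pool.Agent.LibCod83

open Pool.Agent.LibZIS

lemma foelner_card_bad (N : ℕ) (s : ℤ) :
    ((Finset.Ico (0 : ℤ) N).filter (fun a => a + s ∉ Finset.Ico (0 : ℤ) N)).card ≤ s.natAbs := by
  have hsub : (Finset.Ico (0 : ℤ) N).filter (fun a => a + s ∉ Finset.Ico (0 : ℤ) N) ⊆
      Finset.Ico ((N : ℤ) - s) N ∪ Finset.Ico 0 (-s) := by
    intro a ha
    simp only [Finset.mem_filter, Finset.mem_Ico, not_and, not_lt, Finset.mem_union] at ha ⊢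
    by_cases h : 0 ≤ a + s
    · left
      have := ha.2 h
      omega
    · right
      omega
  refine (Finset.card_le_card hsub).trans ((Finset.card_union_le _ _).trans ?_)
  rw [Int.card_Ico, Int.card_Ico]
  omega

/-- free abelian groups of finite rank are amenable. -/
theorem amenable_zn (n : ℕ) : Amenable (Multiplicative (Fin n → ℤ)) := by
  classical
  intro S ε hε
  let c : Multiplicative (Fin n → ℤ) → ℕ := fun s => ∑ i, (Multiplicative.toAdd s i).natAbs
  obtain ⟨N, hN0, hN⟩ : ∃ N : ℕ, 0 < N ∧ ∀ s ∈ S, (c s : ℝ) ≤ ε * N := by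
    obtain ⟨N, hN⟩ := exists_nat_ge ((∑ s ∈ S, (c s : ℝ)) / ε)
    refine ⟨N + 1, by omega, fun s hs => ?_⟩
    have h1 : (c s : ℝ) ≤ ∑ s ∈ S, (c s : ℝ) :=
      Finset.single_le_sum (f := fun s => (c s : ℝ)) (fun _ _ => by positivity) hs
    rw [div_le_iff₀ hε] at hN
    push_cast
    nlinarith
  let box : Finset (Fin n → ℤ) := Fintype.piFinset (fun _ : Fin n => Finset.Ico (0 : ℤ) N)
  have hboxcard : box.card = N ^ n := by
    simp [box, Fintype.card_piFinset]
  refine ⟨box.map (Multiplicative.ofAdd.toEmbedding), ?_, ?_⟩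
  · rw [Finset.map_nonempty]
    refine ⟨fun _ => 0, ?_⟩
    simp only [box, Fintype.mem_piFinset, Finset.mem_Ico]
    intro i
    constructor
    · exact le_refl _
    · exact_mod_cast hN0
  · intro s hs
    let sv : Fin n → ℤ := Multiplicative.toAdd s
    let bad : Fin n → Finset (Fin n → ℤ) := fun i => Fintype.piFinset
      (Function.update (fun _ : Fin n => Finset.Ico (0 : ℤ) N) i
        ((Finset.Ico (0 : ℤ) N).filter (fun a => a + sv i ∉ Finset.Ico (0 : ℤ) N)))
    have hbad : ∀ i, (bad i).card ≤ (sv i).natAbs * N ^ (n - 1) := by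
      intro i
      simp only [bad, Fintype.card_piFinset]
      have h1 : ∀ j : Fin n, (Function.update (fun _ : Fin n => Finset.Ico (0 : ℤ) N) i
        ((Finset.Ico (0 : ℤ) N).filter (fun a => a + sv i ∉ Finset.Ico (0 : ℤ) N)) j).card =
          Function.update (fun _ : Fin n => N) i
            ((Finset.Ico (0 : ℤ) N).filter (fun a => a + sv i ∉ Finset.Ico (0 : ℤ) N)).card j := by
        intro j
        by_cases h : j = i
        · subst h; simp
        · simp [Function.update_of_ne h]
      rw [Finset.prod_congr rfl (fun j _ => h1 j), Finset.prod_update_of_mem (Finset.mem_univ i)]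
      refine Nat.mul_le_mul (foelner_card_bad N (sv i)) ?_
      rw [Finset.prod_const, Finset.card_sdiff_of_subset (by simp)]
      simp
    have hsub : (((box.map (Multiplicative.ofAdd.toEmbedding) : Finset (Multiplicative (Fin n → ℤ))) :
        Set (Multiplicative (Fin n → ℤ))) \ {x | s * x ∈ box.map (Multiplicative.ofAdd.toEmbedding)}) ⊆
        (((Finset.univ.biUnion bad).map (Multiplicative.ofAdd.toEmbedding) :
          Finset (Multiplicative (Fin n → ℤ))) : Set (Multiplicative (Fin n → ℤ))) := by
      rintro x ⟨hx1, hx2⟩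
      rw [Finset.mem_coe, Finset.mem_map] at hx1
      obtain ⟨v, hv, rfl⟩ := hx1
      rw [Finset.mem_coe, Finset.mem_map]
      refine ⟨v, ?_, rfl⟩
      rw [Finset.mem_biUnion]
      by_contra hcon
      push Not at hcon
      apply hx2
      change s * (Multiplicative.ofAdd v) ∈ box.map (Multiplicative.ofAdd.toEmbedding)
      rw [Finset.mem_map]
      refine ⟨sv + v, ?_, rfl⟩
      have hv' : ∀ i, v i ∈ Finset.Ico (0 : ℤ) N := by
        simpa [box] using hv
      simp only [box, Fintype.mem_piFinset]
      intro i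
      by_contra hi
      apply hcon i (Finset.mem_univ i)
      simp only [bad, Fintype.mem_piFinset]
      intro j
      by_cases h : j = i
      · subst h
        rw [Function.update_self, Finset.mem_filter]
        refine ⟨hv' j, ?_⟩
        rw [add_comm]
        exact hi
      · rw [Function.update_of_ne h]
        exact hv' j
    have hcard : ((((box.map (Multiplicative.ofAdd.toEmbedding) : Finset (Multiplicative (Fin n → ℤ))) :
        Set (Multiplicative (Fin n → ℤ))) \ {x | s * x ∈ box.map (Multiplicative.ofAdd.toEmbedding)}).ncard)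
        ≤ c s * N ^ (n - 1) := by
      refine (Set.ncard_le_ncard hsub (Finset.finite_toSet _)).trans ?_
      rw [Set.ncard_coe_finset, Finset.card_map]
      refine Finset.card_biUnion_le.trans ?_
      refine (Finset.sum_le_sum (fun i _ => hbad i)).trans ?_
      rw [← Finset.sum_mul]
    rw [Finset.card_map, hboxcard]
    have h2 : (((c s * N ^ (n - 1) : ℕ)) : ℝ) ≤ ε * ((N ^ n : ℕ) : ℝ) := by
      have h3 := hN s hs
      rcases Nat.eq_zero_or_pos n with hn | hn
      · subst hn
        have hc0 : c s = 0 := by simp [c]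
        rw [hc0]
        simp
        exact hε.le
      · push_cast
        have hNp : (0 : ℝ) ≤ (N : ℝ) ^ (n - 1) := by positivity
        calc (c s : ℝ) * (N : ℝ) ^ (n - 1) ≤ (ε * N) * (N : ℝ) ^ (n - 1) :=
              mul_le_mul_of_nonneg_right h3 hNp
          _ = ε * (N : ℝ) ^ n := by
              have : (N : ℝ) ^ n = (N : ℝ) ^ (n - 1) * N := by
                rw [← pow_succ, Nat.sub_add_cancel hn]
              rw [this]; ring
    refine le_trans ?_ h2
    exact_mod_cast hcard

end Pool.Agent.LibCod83
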