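import Pool.Agent.LibCod83.Vanish
import Pool.Agent.LibCod83.Elem

/-!
Integral cocycles of degree at most two which become trivial in `ℓ²(X)` are trivial.
-/

set_option autoImplicit false

namespace Pool.Agent.LibCod83

open Pool.Agent.LibZIS

universe u v w

variable {G : Type u} [Group G] {E : Type v} [TopologicalSpace E] [PathConnectedSpace E]
  [MulAction G E] [ContinuousConstSMul G E] {X : Type w} [MulAction G X]

/-- a square summable function as an element of `ℓ²(X)`. -/
noncomputable def integral_mk (f : X → ℂ) (hf : Summable fun x => ‖f x‖ ^ 2) : Raw.L2 X :=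
  ⟨f, by
    apply memℓp_gen
    simpa using hf⟩

lemma integral_mk_apply (f : X → ℂ) (hf : Summable fun x => ‖f x‖ ^ 2) (x : X) :
    integral_mk f hf x = f x := rfl

lemma integral_summable (v : Raw.L2 X) : Summable fun x => ‖v x‖ ^ 2 := by
  have h := (lp.memℓp v).summable (by norm_num)
  simpa using h

lemma integral_summable_re (v : Raw.L2 X) : Summable fun x => |(v x).re| ^ 2 := by
  refine Summable.of_nonneg_of_le (fun _ => by positivity) (fun x => ?_) (integral_summable v)
  have := Complex.abs_re_le_norm (v x)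
  gcongr

lemma integral_summable_finsupp (z : X →₀ ℤ) : Summable fun x => ‖((z x : ℤ) : ℂ)‖ ^ 2 := by
  apply summable_of_ne_finset_zero (s := z.support)
  intro x hx
  rw [Finsupp.notMem_support_iff] at hx
  rw [hx]; simp

/-- an integer valued finitely supported function. -/
lemma integral_finsupp (f : X → ℝ) (hf : Summable fun x => |f x| ^ 2)
    (hint : ∀ x, ∃ n : ℤ, f x = n) : ∃ m : X →₀ ℤ, ∀ x, f x = m x := by
  classical
  have hfin := finite_support_of_int f hf hint
  choose n hn using hint
  refine ⟨Finsupp.onFinset hfin.toFinset n ?_, fun x => ?_⟩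
  · intro x hx
    rw [Set.Finite.mem_toFinset]
    show f x ≠ 0
    rw [hn x]
    exact_mod_cast hx
  · rw [Finsupp.onFinset_apply, hn x]

/-- the trivial cocycle. -/
def integral_triv (G : Type u) [Group G] (X : Type w) [MulAction G X] : UCoc G X where
  σ := fun _ _ => 1
  norm := fun _ _ => norm_one
  mul := fun _ _ _ => (mul_one 1).symm

/-- degree one. -/
theorem integral_one (hfree : ∀ (g : G) (e : E), g • e = e → g = 1)
    (hst : ∀ x : X, Amenable (MulAction.stabilizer G x))
    (horb : ∀ x : X, (MulAction.orbit G x).Infinite)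
    (h0 : ¬ Nontrivial (Hgy (lam G) E 0)) (h1 : ¬ Nontrivial (Hgy (lam G) E 1))
    (z : G → X →₀ ℤ)
    (hz : ∀ (g h : G) (x : X), z (g * h) x = z g x + z h (g⁻¹ • x)) :
    ∃ m : X →₀ ℤ, ∀ (g : G) (x : X), z g x = m (g⁻¹ • x) - m x := by
  obtain ⟨v, hv⟩ := twisted_coboundary hfree hst (integral_triv G X) h0 h1
    (fun g => integral_mk (fun x => ((z g x : ℤ) : ℂ)) (integral_summable_finsupp (z g)))
    (fun g h x => by
      simp only [integral_mk_apply, integral_triv, one_mul]
      rw [hz]; push_cast; rfl)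
  simp only [integral_mk_apply, integral_triv, one_mul] at hv
  have hre : ∀ (g : G) (x : X), (z g x : ℝ) = (v (g⁻¹ • x)).re - (v x).re := by
    intro g x
    have h := congrArg Complex.re (hv g x)
    simpa using h
  have hinv : ∀ (g : G) (x : X), ex ((v (g⁻¹ • x)).re) = ex ((v x).re) := by
    intro g x
    have h : (v (g⁻¹ • x)).re = (v x).re + ((z g x : ℤ) : ℝ) := by rw [hre]; ring
    rw [h, ex_add, ex_int, mul_one]
  have hone : ∀ x : X, ex ((v x).re) = 1 := by
    intro x
    by_contra hne
    have hpos : 0 < ‖ex ((v x).re) - 1‖ := norm_pos_iff.2 (sub_ne_zero.2 hne)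
    have hpi : 0 < 2 * Real.pi := by positivity
    obtain ⟨y, hy, hlt⟩ := exists_small (fun x => v x) (integral_summable v) _ (horb x)
      (‖ex ((v x).re) - 1‖ / (2 * Real.pi)) (by positivity)
    obtain ⟨g, rfl⟩ := hy
    have h2 := hinv g⁻¹ x
    rw [inv_inv] at h2
    have h3 := norm_ex_sub_one ((v (g • x)).re)
    rw [h2] at h3
    have h4 : |(v (g • x)).re| ≤ ‖v (g • x)‖ := Complex.abs_re_le_norm _
    rw [lt_div_iff₀ hpi] at hlt
    have h5 : 2 * Real.pi * |(v (g • x)).re| ≤ 2 * Real.pi * ‖v (g • x)‖ := by gcongr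
    have h6 : ‖v (g • x)‖ * (2 * Real.pi) < ‖ex ((v x).re) - 1‖ := hlt
    linarith
  obtain ⟨m, hm⟩ := integral_finsupp (fun x => (v x).re) (integral_summable_re v)
    (fun x => exists_int_of_ex_eq_one _ (hone x))
  refine ⟨m, fun g x => ?_⟩
  have h := hre g x
  rw [hm, hm] at h
  exact_mod_cast h

/-- degree two. -/
theorem integral_two (hfree : ∀ (g : G) (e : E), g • e = e → g = 1) (hE : H1Zero E)
    (hst : ∀ x : X, Amenable (MulAction.stabilizer G x))
    (horb : ∀ x : X, (MulAction.orbit G x).Infinite)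
    (h0 : ¬ Nontrivial (Hgy (lam G) E 0)) (h1 : ¬ Nontrivial (Hgy (lam G) E 1))
    (h2 : ¬ Nontrivial (Hgy (lam G) E 2))
    (z : G → G → X →₀ ℤ)
    (hz : ∀ (g h k : G) (x : X),
      z h k (g⁻¹ • x) - z (g * h) k x + z g (h * k) x - z g h x = 0) :
    ∃ m : G → X →₀ ℤ, ∀ (g h : G) (x : X), z g h x = m h (g⁻¹ • x) - m (g * h) x + m g x := by
  obtain ⟨c, hc⟩ := coboundary_two hfree hE hst h0 h1 h2
    (fun g h => integral_mk (fun x => ((z g h x : ℤ) : ℂ)) (integral_summable_finsupp (z g h)))
    (fun g h k x => by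
      simp only [integral_mk_apply]
      exact_mod_cast hz g h k x)
  simp only [integral_mk_apply] at hc
  set β : G → X → ℝ := fun g x => (c g x).re with hβ
  have hre : ∀ (g h : G) (x : X), (z g h x : ℝ) = β h (g⁻¹ • x) - β (g * h) x + β g x := by
    intro g h x
    have h' := congrArg Complex.re (hc g h x)
    simpa [hβ] using h'
  -- the unimodular cocycle
  let σ : UCoc G X :=
    { σ := fun g x => ex (β g x)
      norm := fun g x => norm_ex _
      mul := fun g h x => by
        have h1 : β (g * h) x = β g x + β h (g⁻¹ • x) + ((-(z g h x) : ℤ) : ℝ) := by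
          push_cast
          rw [hre]; ring
        rw [h1, ex_add, ex_add, ex_int, mul_one] }
  have hσ : ∀ g x, σ.σ g x = ex (β g x) := fun _ _ => rfl
  have hsum : ∀ g : G, Summable fun x => ‖ex (β g x) - 1‖ ^ 2 := by
    intro g
    refine Summable.of_nonneg_of_le (fun _ => by positivity) (fun x => ?_)
      ((integral_summable_re (c g)).mul_left ((2 * Real.pi) ^ 2))
    have h3 := norm_ex_sub_one (β g x)
    calc ‖ex (β g x) - 1‖ ^ 2 ≤ (2 * Real.pi * |β g x|) ^ 2 := by gcongr
      _ = (2 * Real.pi) ^ 2 * |(c g x).re| ^ 2 := by rw [hβ]; ring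
  obtain ⟨v, hv⟩ := twisted_coboundary hfree hst σ h0 h1
    (fun g => integral_mk (fun x => ex (β g x) - 1) (hsum g))
    (fun g h x => by
      simp only [integral_mk_apply]
      rw [← hσ, σ.mul, hσ, hσ]
      ring)
  simp only [integral_mk_apply, hσ] at hv
  have hv' : ∀ (g : G) (x : X), ex (β g x) * (1 - v (g⁻¹ • x)) = 1 - v x := by
    intro g x
    linear_combination hv g x
  have hnorm : ∀ x : X, ‖1 - v x‖ = 1 := by
    intro x
    refine norm_one_sub (G := G) (fun x => v x) (integral_summable v) horb (fun g x => ?_) x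
    rw [← hv' g x, norm_mul, norm_ex, one_mul]
  choose l hl hl' using fun x => exists_log (1 - v x) (hnorm x)
  have hlv : ∀ x, |l x| ≤ ‖v x‖ := by
    intro x
    have h3 := hl' x
    rwa [sub_sub_cancel_left, norm_neg] at h3
  have hlsum : Summable fun x => |l x| ^ 2 := by
    refine Summable.of_nonneg_of_le (fun _ => by positivity) (fun x => ?_) (integral_summable v)
    have := hlv x
    gcongr
  have hex : ∀ (g : G) (x : X), ex (β g x + l (g⁻¹ • x) + -l x) = 1 := by
    intro g x
    rw [ex_add, ex_add, ex_neg, hl, hl, hv']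
    apply mul_inv_cancel₀
    rw [← norm_ne_zero_iff, hnorm]
    exact one_ne_zero
  have hfs : ∀ g : G, ∃ m : X →₀ ℤ, ∀ x, β g x + l (g⁻¹ • x) + -l x = m x := by
    intro g
    refine integral_finsupp (fun x => β g x + l (g⁻¹ • x) + -l x) ?_
      (fun x => exists_int_of_ex_eq_one _ (hex g x))
    have s1 : Summable fun x => |β g x| ^ 2 := integral_summable_re (c g)
    have s2 : Summable fun x => |l (g⁻¹ • x)| ^ 2 :=
      (MulAction.toPerm g⁻¹).summable_iff.2 hlsum
    refine Summable.of_nonneg_of_le (fun _ => by positivity) (fun x => ?_)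
      (((s1.add s2).add hlsum).mul_left 3)
    rw [sq_abs, sq_abs, sq_abs, sq_abs]
    nlinarith [sq_nonneg (β g x - l (g⁻¹ • x)), sq_nonneg (β g x + l x),
      sq_nonneg (l (g⁻¹ • x) + l x)]
  choose m hm using hfs
  refine ⟨m, fun g h x => ?_⟩
  have h3 : (z g h x : ℝ) = (m h (g⁻¹ • x) : ℝ) - (m (g * h) x : ℝ) + (m g x : ℝ) := by
    rw [hre, ← hm, ← hm, ← hm, mul_inv_rev, mul_smul]
    ring
  exact_mod_cast h3

end Pool.Agent.LibCod83
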