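import Pool.Agent.LibCod83.Main

/-!
Poincaré duality groups of dimension at most three.
-/

set_option autoImplicit false

namespace Pool.Agent.LibCod83

open Pool.Agent.LibZIS CategoryTheory

universe u v w

/-- finite groups are amenable. -/
lemma amenable_of_finite (C : Type u) [Group C] [Finite C] : Amenable C := by
  classical
  have _ : Fintype C := Fintype.ofFinite C
  intro S ε hε
  refine ⟨Finset.univ, Finset.univ_nonempty, fun s _ => ?_⟩
  have h1 : (((Finset.univ : Finset C) : Set C) \ {x | s * x ∈ (Finset.univ : Finset C)}) = ∅ := by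
    ext x
    simp
  rw [h1, Set.ncard_empty, Nat.cast_zero]
  positivity

/-- cyclic groups are amenable. -/
lemma amenable_of_cyclic (C : Type u) [Group C] [IsCyclic C] : Amenable C := by
  rcases finite_or_infinite C with h | h
  · exact amenable_of_finite C
  · have e1 : Multiplicative (Fin 1 → ℤ) ≃* Multiplicative ℤ :=
      AddEquiv.toMultiplicative (AddEquiv.funUnique (Fin 1) ℤ)
    exact amenable_congr (e1.trans intCyclicMulEquiv) (amenable_zn 1)

/-- the first homology of a nontrivial abelian group. -/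
lemma nontrivial_H1 {A : Type} [Group A] (hA : ∀ a b : A, a * b = b * a) [Nontrivial A] :
    Nontrivial (groupHomology (Rep.trivial ℤ A ℤ) 1) := by
  let _ : CommGroup A := { (inferInstance : Group A) with mul_comm := hA }
  have e1 : groupHomology (Rep.trivial ℤ A ℤ) 1 ≃+ TensorProduct ℤ (Additive (Abelianization A)) ℤ :=
    groupHomology.H1AddEquivOfIsTrivial (Rep.trivial ℤ A ℤ)
  have e2 : TensorProduct ℤ (Additive (Abelianization A)) ℤ ≃+ Additive (Abelianization A) :=
    (TensorProduct.rid ℤ (Additive (Abelianization A))).toAddEquiv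
  have e3 : A ≃* Abelianization A := Abelianization.equivOfComm
  have h1 : Nontrivial (Abelianization A) := e3.symm.toEquiv.nontrivial
  have h2 : Nontrivial (Additive (Abelianization A)) := h1
  exact (e1.trans e2).toEquiv.nontrivial

/-- the homology of the trivial group in degree zero. -/
lemma nontrivial_bot (G : Type) [Group G] :
    Nontrivial (groupHomology (Rep.trivial ℤ (⊥ : Subgroup G) ℤ) 0) := by
  have e : (⊥ : Subgroup G) ≃* Multiplicative (Fin 0 → ℤ) :=
    { toFun := fun _ => 1
      invFun := fun _ => 1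
      left_inv := fun _ => Subsingleton.elim _ _
      right_inv := fun _ => Subsingleton.elim _ _
      map_mul' := fun _ _ => Subsingleton.elim _ _ }
  exact nontrivial_torus 0 e

/-- a Poincaré duality group of positive dimension is nontrivial. -/
lemma nontrivial_of_isPD {G : Type} [Group G] (n : ℕ) (hG : IsPD G (n + 1)) : Nontrivial G := by
  by_contra hcon
  rw [not_nontrivial_iff_subsingleton] at hcon
  obtain ⟨e⟩ := hG (Rep.trivial ℤ G ℤ) 0 (Nat.zero_le _)
  have h1 : Limits.IsZero (groupHomology (Rep.trivial ℤ G ℤ) (n + 1)) :=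
    isZero_groupHomology_succ_of_subsingleton _ n
  have h2 : Limits.IsZero (groupCohomology (Rep.trivial ℤ G ℤ) 0) := by
    refine h1.of_iso ?_
    exact e
  have h3 : Limits.IsZero (ModuleCat.of ℤ ℤ) :=
    h2.of_iso (groupCohomology.H0IsoOfIsTrivial (Rep.trivial ℤ G ℤ)).symm
  have h4 : Subsingleton (ModuleCat.of ℤ ℤ) := ModuleCat.subsingleton_of_isZero h3
  have h5 : (0 : ℤ) = 1 := h4.elim _ _
  exact zero_ne_one h5

variable {G : Type} [Group G] {E : Type v} [TopologicalSpace E] [PathConnectedSpace E]
  [MulAction G E] [ContinuousConstSMul G E]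

/-- dimension at most three. -/
theorem main_low (hfree : ∀ (g : G) (e : E), g • e = e → g = 1) (hE : H1Zero E) (n : ℕ)
    (hn : n ≤ 3) (hG : IsPD G n) : ∃ i, i ≤ n ∧ i ≤ 2 ∧ Nontrivial (Hgy (lam G) E i) := by
  have key : ∀ k, k ≤ 2 → k ≤ n → n - k = 0 → ∃ i, i ≤ n ∧ i ≤ 2 ∧ Nontrivial (Hgy (lam G) E i) := by
    intro k hk hkn h0
    obtain ⟨i, hi, h⟩ := main_pd hfree hE n hG ⊥ (amenable_of_finite _) k hk hkn (by
      rw [h0]
      exact nontrivial_bot G)
    exact ⟨i, hi.trans hkn, hi.trans hk, h⟩
  interval_cases n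
  · exact key 0 (by norm_num) (by norm_num) rfl
  · exact key 1 (by norm_num) (by norm_num) rfl
  · exact key 2 (by norm_num) (by norm_num) rfl
  · have hnt := nontrivial_of_isPD 2 hG
    obtain ⟨g, hg⟩ := exists_ne (1 : G)
    have hz : Nontrivial (Subgroup.zpowers g) :=
      ⟨⟨⟨g, Subgroup.mem_zpowers g⟩, 1, fun h => hg (congrArg Subtype.val h)⟩⟩
    obtain ⟨i, hi, h⟩ := main_pd hfree hE 3 hG (Subgroup.zpowers g) (amenable_of_cyclic _) 2
      le_rfl (by norm_num) (nontrivial_H1 (fun a b => mul_comm' a b))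
    exact ⟨i, hi.trans (by norm_num), hi, h⟩

end Pool.Agent.LibCod83
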