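import Mathlib

/-!
The top homology of a free abelian group does not vanish.
-/

set_option autoImplicit false

namespace Pool.Agent.LibCod83

open CategoryTheory

/-- a cycle detected by a functional which vanishes on boundaries gives a homology class. -/
lemma nontrivial_of_cycle {A : Type} [Group A] (M : Rep.{0} ℤ A) (n : ℕ)
    (z : (Fin n → A) →₀ M) (hz : ∀ m (h : n = m + 1),
      groupHomology.inhomogeneousChains.d M m (h ▸ z) = 0)
    (f : ((Fin n → A) →₀ M) →ₗ[ℤ] ℤ)
    (hf : ∀ y : (Fin (n + 1) → A) →₀ M, f (groupHomology.inhomogeneousChains.d M n y) = 0)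
    (hfz : f z ≠ 0) : Nontrivial (groupHomology M n) := by
  by_contra hcon
  rw [not_nontrivial_iff_subsingleton] at hcon
  have h0 : Limits.IsZero (groupHomology M n) := ModuleCat.isZero_of_subsingleton _
  have h1 : (groupHomology.inhomogeneousChains M).ExactAt n :=
    (HomologicalComplex.exactAt_iff_isZero_homology _ _).2 h0
  have hex : ∃ y : (Fin (n + 1) → A) →₀ M, groupHomology.inhomogeneousChains.d M n y = z := by
    cases n with
    | zero =>
      rw [HomologicalComplex.exactAt_iff' _ 1 0 0 (by simp) (by simp),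
        ShortComplex.moduleCat_exact_iff] at h1
      obtain ⟨y, hy⟩ := h1 z (by
        have : (groupHomology.inhomogeneousChains M).d 0 0 = 0 :=
          HomologicalComplex.shape _ _ _ (by simp)
        show ((groupHomology.inhomogeneousChains M).d 0 0) z = 0
        rw [this]
        rfl)
      refine ⟨y, ?_⟩
      rw [← hy, ← groupHomology.inhomogeneousChains.d_def]
      rfl
    | succ m =>
      rw [HomologicalComplex.exactAt_iff' _ (m + 2) (m + 1) m (by simp) (by simp),
        ShortComplex.moduleCat_exact_iff] at h1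
      obtain ⟨y, hy⟩ := h1 z (by
        show ((groupHomology.inhomogeneousChains M).d (m + 1) m) z = 0
        rw [groupHomology.inhomogeneousChains.d_def]
        exact hz m rfl)
      refine ⟨y, ?_⟩
      rw [← hy, ← groupHomology.inhomogeneousChains.d_def]
      rfl
  obtain ⟨y, hy⟩ := hex
  exact hfz (by rw [← hy]; exact hf y)

/-! ### the functional -/

lemma alt_tele (P : ℕ → ℤ) (m : ℕ) :
    ∑ j ∈ Finset.range m, (-1 : ℤ) ^ (j + 1) * (P j + P (j + 1)) = -P 0 + (-1) ^ m * P m := by
  induction m with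
  | zero => simp
  | succ m ih =>
    rw [Finset.sum_range_succ, ih]
    ring

lemma alt_sum (n : ℕ) (V : Fin (n + 1) → Fin n → ℤ) :
    (∏ i : Fin n, V i.succ i) + ∑ j : Fin (n + 1), (-1 : ℤ) ^ ((j : ℕ) + 1) *
      ∏ i : Fin n, (if (i : ℕ) < j then V i.castSucc i else if (i : ℕ) = j then
        V i.castSucc i + V i.succ i else V i.succ i) = 0 := by
  classical
  set P : ℕ → ℤ := fun j => ∏ i : Fin n, (if (i : ℕ) < j then V i.castSucc i else V i.succ i)
    with hP
  have h0 : P 0 = ∏ i : Fin n, V i.succ i := by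
    simp [hP]
  have hlast : ∏ i : Fin n, (if (i : ℕ) < (Fin.last n : Fin (n + 1)) then V i.castSucc i else
      if (i : ℕ) = (Fin.last n : Fin (n + 1)) then V i.castSucc i + V i.succ i else V i.succ i) =
      P n := by
    refine Finset.prod_congr rfl fun i _ => ?_
    rw [Fin.val_last, if_pos i.2, if_pos i.2]
  have hmid : ∀ j : Fin n, ∏ i : Fin n, (if (i : ℕ) < (j.castSucc : Fin (n + 1)) then
      V i.castSucc i else if (i : ℕ) = (j.castSucc : Fin (n + 1)) then
      V i.castSucc i + V i.succ i else V i.succ i) = P j + P (j + 1) := by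
    intro j
    have e1 : ∀ (F : Fin n → ℤ), ∏ i, F i = F j * ∏ i ∈ Finset.univ.erase j, F i := fun F =>
      (Finset.mul_prod_erase _ F (Finset.mem_univ j)).symm
    rw [hP]
    simp only
    rw [e1, e1 (fun i => if (i : ℕ) < (j : ℕ) then V i.castSucc i else V i.succ i),
      e1 (fun i => if (i : ℕ) < (j : ℕ) + 1 then V i.castSucc i else V i.succ i)]
    have e2 : ∏ i ∈ Finset.univ.erase j, (if (i : ℕ) < (j.castSucc : Fin (n + 1)) then
        V i.castSucc i else if (i : ℕ) = (j.castSucc : Fin (n + 1)) then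
        V i.castSucc i + V i.succ i else V i.succ i) =
        ∏ i ∈ Finset.univ.erase j, (if (i : ℕ) < (j : ℕ) then V i.castSucc i else V i.succ i) := by
      refine Finset.prod_congr rfl fun i hi => ?_
      have hne : (i : ℕ) ≠ j := fun h => (Finset.ne_of_mem_erase hi) (Fin.ext h)
      rw [Fin.val_castSucc, if_neg hne]
    have e3 : ∏ i ∈ Finset.univ.erase j, (if (i : ℕ) < (j : ℕ) + 1 then
        V i.castSucc i else V i.succ i) =
        ∏ i ∈ Finset.univ.erase j, (if (i : ℕ) < (j : ℕ) then V i.castSucc i else V i.succ i) := by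
      refine Finset.prod_congr rfl fun i hi => ?_
      have hne : (i : ℕ) ≠ j := fun h => (Finset.ne_of_mem_erase hi) (Fin.ext h)
      by_cases h : (i : ℕ) < j
      · rw [if_pos h, if_pos (by omega)]
      · rw [if_neg h, if_neg (by omega)]
    rw [e2, e3]
    rw [Fin.val_castSucc, if_neg (lt_irrefl _), if_pos rfl, if_neg (lt_irrefl _),
      if_pos (Nat.lt_succ_self _)]
    ring
  rw [Fin.sum_univ_castSucc, hlast]
  simp only [hmid]
  have h2 : ∑ j : Fin n, (-1 : ℤ) ^ (((j.castSucc : Fin (n + 1)) : ℕ) + 1) * (P j + P (j + 1)) =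
      ∑ j ∈ Finset.range n, (-1 : ℤ) ^ (j + 1) * (P j + P (j + 1)) := by
    rw [← Fin.sum_univ_eq_sum_range (fun j => (-1 : ℤ) ^ (j + 1) * (P j + P (j + 1))) n]
    rfl
  rw [h2, alt_tele, ← h0, Fin.val_last]
  ring

section torus

variable {A : Type} [Group A] {n : ℕ} (e : A ≃* Multiplicative (Fin n → ℤ))

/-- the coordinates. -/
def vec (a : A) : Fin n → ℤ := Multiplicative.toAdd (e a)

lemma vec_mul (a b : A) : vec e (a * b) = vec e a + vec e b := by
  rw [vec, map_mul]
  rfl

/-- the product of the diagonal coordinates. -/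
noncomputable def diagF : ((Fin n → A) →₀ ℤ) →ₗ[ℤ] ℤ :=
  Finsupp.linearCombination ℤ fun g => ∏ i, vec e (g i) i

lemma diagF_single (g : Fin n → A) (a : ℤ) :
    diagF e (Finsupp.single g a) = a * ∏ i, vec e (g i) i := by
  rw [diagF, Finsupp.linearCombination_single, smul_eq_mul]

lemma vec_contract (j : Fin (n + 1)) (g : Fin (n + 1) → A) (i : Fin n) :
    vec e (Fin.contractNth j (· * ·) g i) i =
      if (i : ℕ) < j then vec e (g i.castSucc) i else if (i : ℕ) = j then
        vec e (g i.castSucc) i + vec e (g i.succ) i else vec e (g i.succ) i := by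
  rw [Fin.contractNth]
  split_ifs
  · rfl
  · rw [vec_mul]
    rfl
  · rfl

lemma diagF_d (y : (Fin (n + 1) → A) →₀ ℤ) :
    diagF e (groupHomology.inhomogeneousChains.d (Rep.trivial ℤ A ℤ) n y) = 0 := by
  induction y using Finsupp.induction_linear with
  | zero => rw [map_zero, map_zero]
  | add x y hx hy => rw [map_add, map_add, hx, hy, add_zero]
  | single g a =>
    have h1 := groupHomology.inhomogeneousChains.d_single (A := Rep.trivial ℤ A ℤ) n g a
    rw [h1]
    have h2 := alt_sum n (fun j i => vec e (g j) i)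
    rw [map_add, map_sum]
    have h3 : ∀ j : Fin (n + 1), diagF e ((-1 : ℤ) ^ ((j : ℕ) + 1) •
        (Finsupp.single (Fin.contractNth j (· * ·) g) a : (Fin n → A) →₀ ℤ)) =
        a * ((-1 : ℤ) ^ ((j : ℕ) + 1) * ∏ i : Fin n, (if (i : ℕ) < j then
          vec e (g i.castSucc) i else if (i : ℕ) = j then
          vec e (g i.castSucc) i + vec e (g i.succ) i else vec e (g i.succ) i)) := by
      intro j
      rw [map_smul, diagF_single, smul_eq_mul]
      simp only [vec_contract]
      ring
    have h4 : diagF e (Finsupp.single (fun i => g i.succ)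
        ((Rep.trivial ℤ A ℤ).ρ (g 0)⁻¹ a) : (Fin n → A) →₀ ℤ) =
        a * ∏ i : Fin n, vec e (g i.succ) i := diagF_single e _ _
    have h5 : (∑ j : Fin (n + 1), diagF e ((-1 : ℤ) ^ ((j : ℕ) + 1) •
        (Finsupp.single (Fin.contractNth j (· * ·) g) a : (Fin n → A) →₀ ℤ))) =
        ∑ j : Fin (n + 1), a * ((-1 : ℤ) ^ ((j : ℕ) + 1) * ∏ i : Fin n, (if (i : ℕ) < j then
          vec e (g i.castSucc) i else if (i : ℕ) = j then
          vec e (g i.castSucc) i + vec e (g i.succ) i else vec e (g i.succ) i)) :=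
      Finset.sum_congr rfl fun j _ => h3 j
    refine (congrArg₂ (· + ·) h4 h5).trans ?_
    rw [← Finset.mul_sum, ← mul_add, h2, mul_zero]

/-- the basis elements. -/
def bas (i : Fin n) : A := e.symm (Multiplicative.ofAdd (Pi.single i 1))

lemma vec_bas (i : Fin n) : vec e (bas e i) = Pi.single i 1 := by
  rw [vec, bas, MulEquiv.apply_symm_apply]
  rfl

lemma bas_comm (i j : Fin n) : bas e i * bas e j = bas e j * bas e i := by
  apply e.injective
  rw [map_mul, map_mul, mul_comm]

/-- the fundamental cycle. -/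
noncomputable def fund : (Fin n → A) →₀ ℤ :=
  ∑ σ : Equiv.Perm (Fin n), (Equiv.Perm.sign σ : ℤ) • Finsupp.single (fun i => bas e (σ i)) (1 : ℤ)

lemma diagF_fund : diagF e (fund e) = 1 := by
  rw [fund, map_sum]
  have h1 : (1 : Matrix (Fin n) (Fin n) ℤ).det = 1 := Matrix.det_one
  rw [Matrix.det_apply] at h1
  refine Eq.trans ?_ h1
  refine Finset.sum_congr rfl fun σ _ => ?_
  rw [map_smul, diagF_single, one_mul]
  have h2 : ∀ i, vec e (bas e (σ i)) i = (1 : Matrix (Fin n) (Fin n) ℤ) (σ i) i := by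
    intro i
    rw [vec_bas, Matrix.one_apply, Pi.single_apply]
    simp [eq_comm]
  rw [Finset.prod_congr rfl fun i _ => h2 i]
  rfl

end torus

section cycle

variable {A : Type} [Group A] {m : ℕ} (e : A ≃* Multiplicative (Fin (m + 1) → ℤ))

lemma contract_swap (j : Fin m) (σ : Equiv.Perm (Fin (m + 1))) :
    Fin.contractNth j.castSucc (· * ·)
      (fun i => bas e ((σ * Equiv.swap j.castSucc j.succ) i)) =
      Fin.contractNth j.castSucc (· * ·) (fun i => bas e (σ i)) := by
  funext k
  rcases lt_trichotomy (k : ℕ) (j : ℕ) with h | h | h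
  · rw [Fin.contractNth_apply_of_lt _ _ _ _ h, Fin.contractNth_apply_of_lt _ _ _ _ h,
      Equiv.Perm.mul_apply, Equiv.swap_apply_of_ne_of_ne]
    · intro h2
      have := congrArg Fin.val h2
      simp at this
      omega
    · intro h2
      have := congrArg Fin.val h2
      simp at this
      omega
  · have hk : k = j := Fin.ext h
    subst hk
    rw [Fin.contractNth_apply_of_eq _ _ _ _ rfl, Fin.contractNth_apply_of_eq _ _ _ _ rfl,
      Equiv.Perm.mul_apply, Equiv.Perm.mul_apply, Equiv.swap_apply_left, Equiv.swap_apply_right,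
      bas_comm]
  · rw [Fin.contractNth_apply_of_gt _ _ _ _ h, Fin.contractNth_apply_of_gt _ _ _ _ h,
      Equiv.Perm.mul_apply, Equiv.swap_apply_of_ne_of_ne]
    · intro h2
      have := congrArg Fin.val h2
      simp at this
      omega
    · intro h2
      have := congrArg Fin.val h2
      simp at this
      omega

lemma sum_mid (j : Fin m) :
    ∑ σ : Equiv.Perm (Fin (m + 1)), (Equiv.Perm.sign σ : ℤ) •
      (Finsupp.single (Fin.contractNth j.castSucc (· * ·) (fun i => bas e (σ i))) (1 : ℤ) :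
        (Fin m → A) →₀ ℤ) = 0 := by
  classical
  set S := ∑ σ : Equiv.Perm (Fin (m + 1)), (Equiv.Perm.sign σ : ℤ) •
      (Finsupp.single (Fin.contractNth j.castSucc (· * ·) (fun i => bas e (σ i))) (1 : ℤ) :
        (Fin m → A) →₀ ℤ) with hS
  have hne : (j.castSucc : Fin (m + 1)) ≠ j.succ := by
    intro h
    have := congrArg Fin.val h
    simp at this
  have h1 : S = -S := by
    conv_lhs => rw [hS, ← Equiv.sum_comp (Equiv.mulRight (Equiv.swap j.castSucc j.succ))]
    rw [hS, ← Finset.sum_neg_distrib]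
    refine Finset.sum_congr rfl fun σ _ => ?_
    rw [Equiv.coe_mulRight, contract_swap, Equiv.Perm.sign_mul, Equiv.Perm.sign_swap hne]
    simp
  ext g
  have h2 := DFunLike.congr_fun h1 g
  rw [Finsupp.neg_apply] at h2
  rw [Finsupp.zero_apply]
  omega

lemma sum_first :
    ∑ σ : Equiv.Perm (Fin (m + 1)), (Equiv.Perm.sign σ : ℤ) •
      (Finsupp.single (fun i : Fin m => bas e (σ i.succ)) (1 : ℤ) : (Fin m → A) →₀ ℤ) =
    (-1 : ℤ) ^ m • ∑ σ : Equiv.Perm (Fin (m + 1)), (Equiv.Perm.sign σ : ℤ) •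
      (Finsupp.single (fun i : Fin m => bas e (σ i.castSucc)) (1 : ℤ) : (Fin m → A) →₀ ℤ) := by
  classical
  conv_rhs => rw [← Equiv.sum_comp (Equiv.mulRight (finRotate (m + 1)))]
  rw [Finset.smul_sum]
  refine Finset.sum_congr rfl fun σ _ => ?_
  rw [Equiv.coe_mulRight, Equiv.Perm.sign_mul, sign_finRotate]
  have h1 : ∀ i : Fin m, (σ * finRotate (m + 1)) i.castSucc = σ i.succ := by
    intro i
    rw [Equiv.Perm.mul_apply]
    congr 1
    have h2 : (i.castSucc : Fin (m + 1)) = ⟨(i : ℕ), Nat.lt_succ_of_lt i.2⟩ := rfl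
    rw [h2, finRotate_of_lt i.2]
    rfl
  simp only [h1]
  rw [smul_smul]
  congr 1
  push_cast
  have h3 : ((-1 : ℤ) ^ m) * ((-1 : ℤ) ^ m) = 1 := by
    rw [← pow_add, ← two_mul, pow_mul]
    simp
  linear_combination (-(Equiv.Perm.sign σ : ℤ)) * h3

lemma d_fund : groupHomology.inhomogeneousChains.d (Rep.trivial ℤ A ℤ) m (fund e) = 0 := by
  classical
  have h0 : ∀ g : Fin (m + 1) → A,
      groupHomology.inhomogeneousChains.d (Rep.trivial ℤ A ℤ) m
        (Finsupp.single g (1 : ℤ) : (Fin (m + 1) → A) →₀ ℤ) =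
      ((Finsupp.single (fun i : Fin m => g i.succ) (1 : ℤ) +
        ∑ j : Fin (m + 1), (-1 : ℤ) ^ ((j : ℕ) + 1) •
          Finsupp.single (Fin.contractNth j (· * ·) g) (1 : ℤ) : (Fin m → A) →₀ ℤ)) := fun g =>
    groupHomology.inhomogeneousChains.d_single (A := Rep.trivial ℤ A ℤ) m g (1 : ℤ)
  have h1 : groupHomology.inhomogeneousChains.d (Rep.trivial ℤ A ℤ) m (fund e) =
      (∑ σ : Equiv.Perm (Fin (m + 1)), (Equiv.Perm.sign σ : ℤ) •
        ((Finsupp.single (fun i : Fin m => bas e (σ i.succ)) (1 : ℤ) +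
          ∑ j : Fin (m + 1), (-1 : ℤ) ^ ((j : ℕ) + 1) •
            Finsupp.single (Fin.contractNth j (· * ·) (fun i => bas e (σ i))) (1 : ℤ) :
              (Fin m → A) →₀ ℤ))) := by
    rw [fund, map_sum]
    refine Finset.sum_congr rfl fun σ _ => ?_
    rw [map_smul, h0]
  rw [h1]
  show (∑ σ : Equiv.Perm (Fin (m + 1)), (Equiv.Perm.sign σ : ℤ) •
        ((Finsupp.single (fun i : Fin m => bas e (σ i.succ)) (1 : ℤ) +
          ∑ j : Fin (m + 1), (-1 : ℤ) ^ ((j : ℕ) + 1) •
            Finsupp.single (Fin.contractNth j (· * ·) (fun i => bas e (σ i))) (1 : ℤ) :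
              (Fin m → A) →₀ ℤ))) = (0 : (Fin m → A) →₀ ℤ)
  simp only [smul_add, Finset.smul_sum]
  rw [Finset.sum_add_distrib, Finset.sum_comm, Fin.sum_univ_castSucc]
  have h2 : ∀ j : Fin m, ∑ σ : Equiv.Perm (Fin (m + 1)), (Equiv.Perm.sign σ : ℤ) •
      (-1 : ℤ) ^ (((j.castSucc : Fin (m + 1)) : ℕ) + 1) •
      (Finsupp.single (Fin.contractNth j.castSucc (· * ·) (fun i => bas e (σ i))) (1 : ℤ) :
        (Fin m → A) →₀ ℤ) = 0 := by
    intro j
    have h3 := congrArg (fun c => (-1 : ℤ) ^ (((j.castSucc : Fin (m + 1)) : ℕ) + 1) • c)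
      (sum_mid e j)
    simp only [smul_zero, Finset.smul_sum] at h3
    rw [← h3]
    refine Finset.sum_congr rfl fun σ _ => ?_
    rw [smul_comm]
  rw [Finset.sum_eq_zero fun j _ => h2 j, zero_add, sum_first, Finset.smul_sum,
    ← Finset.sum_add_distrib]
  refine Finset.sum_eq_zero fun σ _ => ?_
  have h4 : Fin.contractNth (Fin.last m) (· * ·) (fun i => bas e (σ i)) =
      fun i : Fin m => bas e (σ i.castSucc) := by
    funext k
    exact Fin.contractNth_apply_of_lt _ _ _ _ k.2
  rw [h4, Fin.val_last, smul_comm ((-1 : ℤ) ^ m), ← smul_add, ← add_smul, pow_succ]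
  have h5 : (-1 : ℤ) ^ m + (-1 : ℤ) ^ m * (-1) = 0 := by ring
  rw [h5, zero_smul, smul_zero]

end cycle

/-- `H_n(ℤⁿ; ℤ) ≠ 0`. -/
theorem nontrivial_torus {A : Type} [Group A] (n : ℕ) (e : A ≃* Multiplicative (Fin n → ℤ)) :
    Nontrivial (groupHomology (Rep.trivial ℤ A ℤ) n) := by
  refine nontrivial_of_cycle (Rep.trivial ℤ A ℤ) n (fund e) (fun m h => ?_) (diagF e)
    (diagF_d e) (by rw [diagF_fund]; exact one_ne_zero)
  subst h
  exact d_fund e

end Pool.Agent.LibCod83
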