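import Pool.Agent.LibCod83.Integral
import Pool.Agent.LibCod83.Coh
import Pool.Agent.LibCod83.Duality
import Pool.Agent.LibCod83.Torus
import Pool.Agent.LibCod83.Foelner

/-!
Amenable subgroups of codimension at most two.
-/

set_option autoImplicit false

namespace Pool.Agent.LibCod83

open Pool.Agent.LibZIS

universe v

variable {G : Type} [Group G] {E : Type v} [TopologicalSpace E] [PathConnectedSpace E]
  [MulAction G E] [ContinuousConstSMul G E]

/-- permutation modules. -/
theorem main_perm (hfree : ∀ (g : G) (e : E), g • e = e → g = 1) (hE : H1Zero E)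
    (X : Type) [MulAction G X] (hst : ∀ x : X, Amenable (MulAction.stabilizer G x))
    (horb : ∀ x : X, (MulAction.orbit G x).Infinite) (k : ℕ) (hk : k ≤ 2)
    (hne : Nontrivial (groupCohomology (Rep.ofMulAction ℤ G X) k)) :
    ∃ i, i ≤ k ∧ Nontrivial (Hgy (lam G) E i) := by
  by_contra hcon
  push Not at hcon
  have H : ∀ i, i ≤ k → ¬ Nontrivial (Hgy (lam G) E i) := fun i hi => by
    have := hcon i hi
    rwa [not_nontrivial_iff_subsingleton]
  interval_cases k
  · exact not_nontrivial_zero horb hne
  · exact not_nontrivial_one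
      (integral_one hfree hst horb (H 0 (by norm_num)) (H 1 (by norm_num))) hne
  · exact not_nontrivial_two
      (integral_two hfree hE hst horb (H 0 (by norm_num)) (H 1 (by norm_num)) (H 2 (by norm_num)))
      hne

/-- finite orbits. -/
theorem main_finite (X : Type) [MulAction G X] [Nonempty X] [Finite X]
    (hst : ∀ x : X, Amenable (MulAction.stabilizer G x)) :
    Nontrivial (Hgy (lam G) E 0) := by
  classical
  by_contra h0
  have _ : Fintype X := Fintype.ofFinite X
  let v : Raw.L2 X := ⟨fun _ => 1, memℓp_gen (Summable.of_finite)⟩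
  have hv := invariant_zero hst h0 v (fun _ _ => rfl)
  obtain ⟨x⟩ : Nonempty X := inferInstance
  have h1 := congrArg (fun ξ : Raw.L2 X => (ξ : ∀ _ : X, ℂ) x) hv
  exact one_ne_zero h1

/-- amenable subgroups of Poincaré duality groups. -/
theorem main_pd (hfree : ∀ (g : G) (e : E), g • e = e → g = 1) (hE : H1Zero E) (n : ℕ)
    (hG : IsPD G n) (A : Subgroup G) (hA : Amenable A) (k : ℕ) (hk : k ≤ 2) (hkn : k ≤ n)
    (hne : Nontrivial (groupHomology (Rep.trivial ℤ A ℤ) (n - k))) :
    ∃ i, i ≤ k ∧ Nontrivial (Hgy (lam G) E i) := by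
  rcases finite_or_infinite (G ⧸ A) with hfin | hinf
  · exact ⟨0, Nat.zero_le _, main_finite (E := E) (G ⧸ A) (amenable_stabilizer A hA)⟩
  · refine main_perm hfree hE (G ⧸ A) (amenable_stabilizer A hA) (fun x => ?_) k hk
      (nontrivial_of_pd hG A k hkn hne)
    rw [MulAction.orbit_eq_univ]
    exact Set.infinite_univ

/-- free abelian subgroups of rank `n` of Poincaré duality groups of dimension `n + 2`. -/
theorem main_torus (hfree : ∀ (g : G) (e : E), g • e = e → g = 1) (hE : H1Zero E) (n : ℕ)
    (hG : IsPD G (n + 2)) (φ : Multiplicative (Fin n → ℤ) →* G) (hφ : Function.Injective φ) :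
    ∃ i, i ≤ 2 ∧ Nontrivial (Hgy (lam G) E i) := by
  have e : φ.range ≃* Multiplicative (Fin n → ℤ) := (MonoidHom.ofInjective hφ).symm
  refine main_pd hfree hE (n + 2) hG φ.range (amenable_congr e.symm (amenable_zn n)) 2 le_rfl
    (by omega) ?_
  exact nontrivial_torus n e

end Pool.Agent.LibCod83
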