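import Pool.Agent.LibCod83.Low

/-!
Permutation modules with arbitrary orbits.
-/

set_option autoImplicit false

namespace Pool.Agent.LibCod83

open Pool.Agent.LibZIS

universe v

variable {G : Type} [Group G] {E : Type v} [TopologicalSpace E] [PathConnectedSpace E]
  [MulAction G E] [ContinuousConstSMul G E]

/-- a nontrivial cohomology group of a permutation module, in degree at most two. -/
theorem main_perm' (hfree : ∀ (g : G) (e : E), g • e = e → g = 1) (hE : H1Zero E)
    (X : Type) [MulAction G X] (hst : ∀ x : X, Amenable (MulAction.stabilizer G x))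
    (k : ℕ) (hk : k ≤ 2)
    (hne : Nontrivial (groupCohomology (Rep.ofMulAction ℤ G X) k)) :
    ∃ i, i ≤ k ∧ Nontrivial (Hgy (lam G) E i) := by
  by_cases horb : ∀ x : X, (MulAction.orbit G x).Infinite
  · exact main_perm hfree hE X hst horb k hk hne
  · push Not at horb
    obtain ⟨x, hx⟩ := horb
    have hfin : (MulAction.orbit G x).Finite := hx
    have _ : Finite (MulAction.orbit G x) := hfin
    have _ : Nonempty (MulAction.orbit G x) := ⟨⟨x, MulAction.mem_orbit_self x⟩⟩
    refine ⟨0, Nat.zero_le _, main_finite (E := E) (MulAction.orbit G x) fun y => ?_⟩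
    have h1 : MulAction.stabilizer G y = MulAction.stabilizer G (y : X) := by
      ext g
      rw [MulAction.mem_stabilizer_iff, MulAction.mem_stabilizer_iff, Subtype.ext_iff]
      rfl
    rw [h1]
    exact hst _

end Pool.Agent.LibCod83
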