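import Pool.Agent.LibCod83.Defs

/-!
When the point stabilizers are amenable the reduced group C*-algebra acts on `ℓ²(X)` through every
monomial representation twisted by a unimodular cocycle.
-/

set_option autoImplicit false

namespace Pool.Agent.LibCod83

open Pool.Agent.LibZIS

universe u v w

section mulU

variable {Y : Type w}

/-- multiplication by a unimodular function. -/
noncomputable def mulU (μ : Y → ℂ) (hμ : ∀ y, ‖μ y‖ = 1) : Raw.L2 Y →ₗᵢ[ℂ] Raw.L2 Y where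
  toFun ξ := ⟨fun y => μ y * ξ y, memℓp_gen (by
    have h := (memℓp_gen_iff (by simp)).1 (lp.memℓp ξ)
    refine h.congr fun y => ?_
    rw [norm_mul, hμ, one_mul])⟩
  map_add' ξ η := by
    ext y
    show μ y * (ξ + η : Raw.L2 Y) y = μ y * ξ y + μ y * η y
    rw [lp.coeFn_add, Pi.add_apply, mul_add]
  map_smul' a ξ := by
    ext y
    show μ y * (a • ξ : Raw.L2 Y) y = a * (μ y * ξ y)
    rw [lp.coeFn_smul, Pi.smul_apply, smul_eq_mul]
    ring
  norm_map' ξ := by
    have hp : (0 : ℝ) < (2 : ENNReal).toReal := by simp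
    rw [lp.norm_eq_tsum_rpow hp, lp.norm_eq_tsum_rpow hp]
    congr 1
    refine tsum_congr fun y => ?_
    show ‖μ y * ξ y‖ ^ (2 : ENNReal).toReal = ‖ξ y‖ ^ (2 : ENNReal).toReal
    rw [norm_mul, hμ, one_mul]

lemma mulU_apply (μ : Y → ℂ) (hμ : ∀ y, ‖μ y‖ = 1) (ξ : Raw.L2 Y) (y : Y) :
    mulU μ hμ ξ y = μ y * ξ y := rfl

end mulU

variable {G : Type u} [Group G] {X : Type w} [MulAction G X]

lemma UCoc.ne (c : UCoc G X) (g : G) (x : X) : c.σ g x ≠ 0 := by
  intro h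
  have := c.norm g x
  rw [h, norm_zero] at this
  exact zero_ne_one this

lemma UCoc.one (c : UCoc G X) (x : X) : c.σ 1 x = 1 := by
  have h := c.mul 1 1 x
  rw [inv_one, one_smul, one_mul] at h
  have h2 := c.ne 1 x
  field_simp at h
  exact h.symm

variable (c : UCoc G X)

/-- the twisted translation. -/
noncomputable def rho (g : G) : Raw.L2 X →L[ℂ] Raw.L2 X :=
  (mulU (c.σ g) (c.norm g)).toContinuousLinearMap * Raw.tr g

lemma rho_apply (g : G) (ξ : Raw.L2 X) (x : X) : rho c g ξ x = c.σ g x * ξ (g⁻¹ • x) := rfl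

lemma rho_one : rho c 1 = 1 := by
  ext ξ x
  rw [rho_apply, c.one, inv_one, one_smul, one_mul]
  rfl

lemma rho_mul (g h : G) : rho c (g * h) = rho c g * rho c h := by
  ext ξ x
  rw [rho_apply, c.mul, mul_inv_rev, mul_smul]
  show _ = rho c g (rho c h ξ) x
  rw [rho_apply, rho_apply, mul_assoc]

/-- the twisted representation. -/
noncomputable def rhoHom : G →* (Raw.L2 X →L[ℂ] Raw.L2 X) where
  toFun := rho c
  map_one' := rho_one c
  map_mul' := rho_mul c

/-- the twisted representation of the group algebra. -/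
noncomputable def TT : MonoidAlgebra ℂ G →ₐ[ℂ] (Raw.L2 X →L[ℂ] Raw.L2 X) :=
  MonoidAlgebra.lift ℂ _ G (rhoHom c)

lemma TT_apply (f : MonoidAlgebra ℂ G) (ξ : Raw.L2 X) :
    TT c f ξ = ∑ g ∈ f.coeff.support, f.coeff g • rho c g ξ := by
  rw [TT, MonoidAlgebra.lift_apply, Finsupp.sum, sum_apply]
  rfl

lemma TT_apply_apply (f : MonoidAlgebra ℂ G) (ξ : Raw.L2 X) (x : X) :
    TT c f ξ x = ∑ g ∈ f.coeff.support, f.coeff g * (c.σ g x * ξ (g⁻¹ • x)) := by
  rw [TT_apply]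
  have h1 : ((∑ g ∈ f.coeff.support, f.coeff g • rho c g ξ : Raw.L2 X) : ∀ _ : X, ℂ) =
      ∑ g ∈ f.coeff.support, ((f.coeff g • rho c g ξ : Raw.L2 X) : ∀ _ : X, ℂ) := by
    exact map_sum (lp.coeFnAddMonoidHom (fun _ : X => ℂ) 2) _ _
  rw [h1, Finset.sum_apply]
  rfl

/-- the unimodular function on the group. -/
noncomputable def mu (o : X) (h : G) : ℂ := (c.σ h (h • o))⁻¹

lemma norm_mu (o : X) (h : G) : ‖mu c o h‖ = 1 := by
  rw [mu, norm_inv, c.norm, inv_one]

/-- the twisted lift. -/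
noncomputable def tlift (o : X) (w : Raw.L2 (MulAction.stabilizer G o)) : Raw.L2 X →ₗ[ℂ] Raw.L2 G :=
  (mulU (mu c o) (norm_mu c o)).toLinearMap ∘ₗ Raw.liftL o w

lemma tlift_apply (o : X) (w : Raw.L2 (MulAction.stabilizer G o)) (ξ : Raw.L2 X) (h : G) :
    tlift c o w ξ h = mu c o h * Raw.lift o w ξ h := rfl

lemma norm_tlift (o : X) (w : Raw.L2 (MulAction.stabilizer G o)) (ξ : Raw.L2 X) :
    ‖tlift c o w ξ‖ = ‖Raw.lift o w ξ‖ :=
  (mulU (mu c o) (norm_mu c o)).norm_map (Raw.lift o w ξ)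

/-- the defect of the twisted lift has the same norm as the one of the lift. -/
lemma norm_tdefect (o : X) (w : Raw.L2 (MulAction.stabilizer G o)) (g : G) (ξ : Raw.L2 X) :
    ‖(Raw.tr g (tlift c o w ξ) : Raw.L2 G) - tlift c o w (rho c g ξ)‖ =
      ‖(Raw.tr g (Raw.lift o w ξ) : Raw.L2 G) - Raw.lift o w (Raw.tr g ξ)‖ := by
  have h0 : ‖(Raw.tr g (tlift c o w ξ) : Raw.L2 G) - tlift c o w (rho c g ξ)‖ ^ 2 =
      ‖(Raw.tr g (Raw.lift o w ξ) : Raw.L2 G) - Raw.lift o w (Raw.tr g ξ)‖ ^ 2 := by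
    rw [Raw.norm_sq_eq, Raw.norm_sq_eq]
    refine tsum_congr fun h => ?_
    congr 1
    rw [lp.coeFn_sub, lp.coeFn_sub, Pi.sub_apply, Pi.sub_apply, Raw.tr_apply, Raw.tr_apply,
      tlift_apply, tlift_apply]
    have e1 : (g⁻¹ • h) • o = g⁻¹ • h • o := smul_assoc _ _ _
    have e2 : mu c o h * Raw.lift o w (rho c g ξ) h =
        mu c o (g⁻¹ • h) * Raw.lift o w (Raw.tr g ξ) h := by
      rw [Raw.lift_apply, Raw.lift_apply, rho_apply, Raw.tr_apply, mu, mu, e1]
      have h1 := c.mul g (g⁻¹ * h) (h • o)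
      rw [mul_inv_cancel_left] at h1
      rw [h1, smul_eq_mul]
      have n1 := c.ne g (h • o)
      have n2 := c.ne (g⁻¹ * h) (g⁻¹ • h • o)
      field_simp
    rw [e2, ← mul_sub, norm_mul, norm_mu, one_mul]
  exact (sq_eq_sq₀ (norm_nonneg _) (norm_nonneg _)).1 h0

lemma exists_tlift [DecidableEq X] (o : X) (hC : Amenable (MulAction.stabilizer G o))
    (f : MonoidAlgebra ℂ G) (s : Finset X) (hs : ∀ x ∈ s, x ∈ MulAction.orbit G o) (a : X → ℂ)
    {ε : ℝ} (hε : 0 < ε) : ∃ w : Raw.L2 (MulAction.stabilizer G o), ‖w‖ = 1 ∧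
      ‖Raw.T G G f (tlift c o w (∑ x ∈ s, lp.single 2 x (a x))) -
        tlift c o w (TT c f (∑ x ∈ s, lp.single 2 x (a x)))‖ ≤ ε := by
  classical
  set K : ℝ := ∑ g ∈ f.coeff.support, ∑ x ∈ s, ‖f.coeff g‖ * ‖a x‖ with hK
  have hK0 : 0 ≤ K := Finset.sum_nonneg fun g _ => Finset.sum_nonneg fun x _ => by positivity
  let κ : G × X → MulAction.stabilizer G o := fun p =>
    if h : p.2 ∈ MulAction.orbit G o then Raw.coc o p.1 p.2 h else 1
  obtain ⟨w, hw1, hw⟩ := Raw.exists_almost_inv hC ((f.coeff.support ×ˢ s).image κ)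
    (ε := ε / (K + 1)) (by positivity)
  refine ⟨w, hw1, ?_⟩
  have h1 : Raw.T G G f (tlift c o w (∑ x ∈ s, lp.single 2 x (a x))) -
        tlift c o w (TT c f (∑ x ∈ s, lp.single 2 x (a x))) =
      ∑ g ∈ f.coeff.support, ∑ x ∈ s, f.coeff g • (Raw.tr g (tlift c o w (lp.single 2 x (a x))) -
        tlift c o w (rho c g (lp.single 2 x (a x)))) := by
    rw [Raw.T_apply, TT_apply, map_sum, map_sum, ← Finset.sum_sub_distrib]
    refine Finset.sum_congr rfl fun g _ => ?_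
    rw [map_smul, ← smul_sub, ← Finset.smul_sum, Finset.sum_sub_distrib]
    congr 1
    rw [map_sum, map_sum, map_sum]
  rw [h1]
  calc ‖∑ g ∈ f.coeff.support, ∑ x ∈ s, f.coeff g •
        (Raw.tr g (tlift c o w (lp.single 2 x (a x))) -
        tlift c o w (rho c g (lp.single 2 x (a x))))‖
      ≤ ∑ g ∈ f.coeff.support, ∑ x ∈ s, ‖f.coeff g •
        (Raw.tr g (tlift c o w (lp.single 2 x (a x))) -
        tlift c o w (rho c g (lp.single 2 x (a x))))‖ :=
        (norm_sum_le _ _).trans (Finset.sum_le_sum fun g _ => norm_sum_le _ _)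
    _ ≤ ∑ g ∈ f.coeff.support, ∑ x ∈ s, ‖f.coeff g‖ * ‖a x‖ * (ε / (K + 1)) := by
        refine Finset.sum_le_sum fun g hg => Finset.sum_le_sum fun x hx => ?_
        rw [norm_smul, norm_tdefect, Raw.norm_defect_single o g w (hs x hx), mul_assoc]
        refine mul_le_mul_of_nonneg_left (mul_le_mul_of_nonneg_left ?_ (norm_nonneg _))
          (norm_nonneg _)
        have h2 := hw (κ (g, x)) (Finset.mem_image_of_mem _ (Finset.mk_mem_product hg hx))
        have h3 : κ (g, x) = Raw.coc o g x (hs x hx) := dif_pos (hs x hx)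
        rw [h3] at h2
        exact h2
    _ = K * (ε / (K + 1)) := by
        rw [hK, Finset.sum_mul]
        exact Finset.sum_congr rfl fun g _ => (Finset.sum_mul _ _ _).symm
    _ ≤ ε := by
        rw [mul_div_assoc', div_le_iff₀ (by positivity)]
        nlinarith

lemma TT_res (f : MonoidAlgebra ℂ G) (S : Set X) (hS : ∀ (g : G) (x : X), g • x ∈ S ↔ x ∈ S)
    (ξ : Raw.L2 X) : TT c f (Raw.res S ξ) = Raw.res S (TT c f ξ) := by
  classical
  ext x
  rw [Raw.res_apply, TT_apply_apply, TT_apply_apply]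
  split_ifs with h
  · refine Finset.sum_congr rfl fun g _ => ?_
    rw [Raw.res_apply, if_pos ((hS _ _).2 h)]
  · refine Finset.sum_eq_zero fun g _ => ?_
    rw [Raw.res_apply, if_neg (fun h' => h ((hS _ _).1 h')), mul_zero, mul_zero]

lemma norm_TT_orbit [DecidableEq X] (o : X) (hC : Amenable (MulAction.stabilizer G o))
    (f : MonoidAlgebra ℂ G) (s : Finset X) (hs : ∀ x ∈ s, x ∈ MulAction.orbit G o) (a : X → ℂ) :
    ‖TT c f (∑ x ∈ s, lp.single 2 x (a x))‖ ≤
      ‖Raw.T G G f‖ * ‖(∑ x ∈ s, lp.single 2 x (a x) : Raw.L2 X)‖ := by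
  refine le_of_forall_pos_le_add fun ε hε => ?_
  obtain ⟨w, hw1, hw⟩ := exists_tlift c o hC f s hs a hε
  set ξ : Raw.L2 X := ∑ x ∈ s, lp.single 2 x (a x) with hξ
  have h0 : ∀ x, x ∉ MulAction.orbit G o → ξ x = 0 := by
    intro x hx
    rw [hξ, Raw.lpsum_apply, if_neg fun h => hx (hs x h)]
  have h1 : ∀ x, x ∉ MulAction.orbit G o → TT c f ξ x = 0 := by
    intro x hx
    rw [TT_apply_apply]
    refine Finset.sum_eq_zero fun g _ => ?_
    rw [h0, mul_zero, mul_zero]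
    intro h
    apply hx
    have h2 := MulAction.mem_orbit_of_mem_orbit (g : G) h
    rwa [smul_inv_smul] at h2
  calc ‖TT c f ξ‖ = ‖tlift c o w (TT c f ξ)‖ := by
        rw [norm_tlift, Raw.norm_lift_of_mem o w _ h1, hw1, mul_one]
    _ ≤ ‖Raw.T G G f (tlift c o w ξ)‖ +
        ‖Raw.T G G f (tlift c o w ξ) - tlift c o w (TT c f ξ)‖ := by
        have := norm_sub_norm_le (tlift c o w (TT c f ξ)) (Raw.T G G f (tlift c o w ξ))
        rw [norm_sub_rev] at this
        linarith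
    _ ≤ ‖Raw.T G G f‖ * ‖tlift c o w ξ‖ + ε := add_le_add (ContinuousLinearMap.le_opNorm _ _) hw
    _ = ‖Raw.T G G f‖ * ‖ξ‖ + ε := by
        rw [norm_tlift, Raw.norm_lift_of_mem o w _ h0, hw1, mul_one]

lemma norm_TT_finite [DecidableEq X] (hst : ∀ x : X, Amenable (MulAction.stabilizer G x))
    (f : MonoidAlgebra ℂ G) (a : X → ℂ) (n : ℕ) : ∀ s : Finset X, s.card ≤ n →
    ‖TT c f (∑ x ∈ s, lp.single 2 x (a x))‖ ≤
      ‖Raw.T G G f‖ * ‖(∑ x ∈ s, lp.single 2 x (a x) : Raw.L2 X)‖ := by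
  classical
  induction n with
  | zero =>
    intro s hs
    have : s = ∅ := Finset.card_eq_zero.1 (Nat.le_zero.1 hs)
    subst this
    simp
  | succ n ih =>
    intro s hs
    by_cases hs0 : s = ∅
    · subst hs0; simp
    obtain ⟨o, ho⟩ := Finset.nonempty_iff_ne_empty.2 hs0
    set S : Set X := MulAction.orbit G o with hS
    have hSinv : ∀ (g : G) (x : X), g • x ∈ S ↔ x ∈ S := by
      intro g x
      constructor
      · intro h
        have h2 := MulAction.mem_orbit_of_mem_orbit (g⁻¹ : G) h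
        rwa [inv_smul_smul] at h2
      · exact MulAction.mem_orbit_of_mem_orbit g
    have hScinv : ∀ (g : G) (x : X), g • x ∈ Sᶜ ↔ x ∈ Sᶜ := by
      intro g x
      rw [Set.mem_compl_iff, Set.mem_compl_iff, hSinv]
    set ξ : Raw.L2 X := ∑ x ∈ s, lp.single 2 x (a x) with hξ
    have e1 : Raw.res S ξ = ∑ x ∈ s.filter (· ∈ S), lp.single 2 x (a x) := by
      ext x
      rw [Raw.res_apply, Raw.lpsum_apply, Raw.lpsum_apply]
      by_cases h : x ∈ S <;> by_cases h' : x ∈ s <;> simp [h, h']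
    have e2 : Raw.res Sᶜ ξ = ∑ x ∈ s.filter (· ∉ S), lp.single 2 x (a x) := by
      ext x
      rw [Raw.res_apply, Raw.lpsum_apply, Raw.lpsum_apply]
      by_cases h : x ∈ S <;> by_cases h' : x ∈ s <;> simp [h, h']
    have b1 : ‖Raw.res S (TT c f ξ)‖ ≤ ‖Raw.T G G f‖ * ‖Raw.res S ξ‖ := by
      rw [← TT_res c f S hSinv, e1]
      exact norm_TT_orbit c o (hst o) f _ (fun x hx => (Finset.mem_filter.1 hx).2) a
    have b2 : ‖Raw.res Sᶜ (TT c f ξ)‖ ≤ ‖Raw.T G G f‖ * ‖Raw.res Sᶜ ξ‖ := by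
      rw [← TT_res c f Sᶜ hScinv, e2]
      refine ih _ ?_
      have h3 : (s.filter (· ∉ S)).card < s.card := by
        refine Finset.card_lt_card (Finset.filter_ssubset.2 ⟨o, ho, ?_⟩)
        intro h
        exact h (MulAction.mem_orbit_self o)
      omega
    have b3 : ‖TT c f ξ‖ ^ 2 ≤ (‖Raw.T G G f‖ * ‖ξ‖) ^ 2 := by
      rw [Raw.norm_res_sq S (TT c f ξ), mul_pow, Raw.norm_res_sq S ξ, mul_add, ← mul_pow,
        ← mul_pow]
      exact add_le_add (pow_le_pow_left₀ (norm_nonneg _) b1 2)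
        (pow_le_pow_left₀ (norm_nonneg _) b2 2)
    exact le_of_sq_le_sq b3 (by positivity)

/-- The twisted representation is weakly contained in the regular representation. -/
theorem norm_TT_le (hst : ∀ x : X, Amenable (MulAction.stabilizer G x))
    (f : MonoidAlgebra ℂ G) : ‖TT c f‖ ≤ ‖Raw.T G G f‖ := by
  classical
  refine ContinuousLinearMap.opNorm_le_bound _ (norm_nonneg _) fun ξ => ?_
  have h1 : HasSum (fun x => (lp.single 2 x (ξ x) : Raw.L2 X)) ξ := lp.hasSum_single (by simp) ξ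
  have h2 : Filter.Tendsto (fun s : Finset X => ∑ x ∈ s, (lp.single 2 x (ξ x) : Raw.L2 X))
    Filter.atTop (nhds ξ) := h1
  have h3 := ((TT c f).continuous.tendsto ξ).comp h2
  exact le_of_tendsto_of_tendsto' h3.norm (h2.norm.const_mul _)
    fun s => norm_TT_finite c hst f (fun x => ξ x) s.card s le_rfl

/-! ### the action of the reduced group C*-algebra -/

/-- the closure of the image of the group algebra in the two operator algebras. -/
noncomputable def tgr : Subalgebra ℂ ((Raw.L2 G →L[ℂ] Raw.L2 G) × (Raw.L2 X →L[ℂ] Raw.L2 X)) :=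
  ((Raw.T G G).prod (TT c)).range.topologicalClosure

lemma tgr_norm_le (hst : ∀ x : X, Amenable (MulAction.stabilizer G x))
    {p : (Raw.L2 G →L[ℂ] Raw.L2 G) × (Raw.L2 X →L[ℂ] Raw.L2 X)} (hp : p ∈ tgr c) :
    ‖p.2‖ ≤ ‖p.1‖ := by
  have h1 : IsClosed {p : (Raw.L2 G →L[ℂ] Raw.L2 G) × (Raw.L2 X →L[ℂ] Raw.L2 X) |
      ‖p.2‖ ≤ ‖p.1‖} := isClosed_le continuous_snd.norm continuous_fst.norm
  have h2 : closure (((Raw.T G G).prod (TT c)).range :
      Set ((Raw.L2 G →L[ℂ] Raw.L2 G) × (Raw.L2 X →L[ℂ] Raw.L2 X))) ⊆ {p | ‖p.2‖ ≤ ‖p.1‖} := by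
    refine closure_minimal ?_ h1
    rintro _ ⟨f, rfl⟩
    exact norm_TT_le c hst f
  exact h2 hp

lemma tgr_unique (hst : ∀ x : X, Amenable (MulAction.stabilizer G x))
    {a : Raw.L2 G →L[ℂ] Raw.L2 G} {b b' : Raw.L2 X →L[ℂ] Raw.L2 X} (h : (a, b) ∈ tgr c)
    (h' : (a, b') ∈ tgr c) : b = b' := by
  have h1 := tgr_norm_le c hst (Subalgebra.sub_mem _ h h')
  have h2 : ‖b - b'‖ ≤ ‖a - a‖ := h1
  rw [sub_self, norm_zero] at h2
  exact sub_eq_zero.1 (norm_le_zero_iff.1 h2)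

lemma tgr_rho (g : G) : ((Raw.tr g : Raw.L2 G →L[ℂ] Raw.L2 G), rho c g) ∈ tgr c := by
  refine subset_closure ⟨MonoidAlgebra.single g 1, ?_⟩
  show (Raw.T G G _, TT c _) = _
  rw [Raw.T, TT, MonoidAlgebra.lift_single, MonoidAlgebra.lift_single, one_smul, one_smul]
  rfl

lemma tgr_exists (hst : ∀ x : X, Amenable (MulAction.stabilizer G x))
    {a : Raw.L2 G →L[ℂ] Raw.L2 G} (ha : a ∈ Raw.crAlg G) :
    ∃ b : Raw.L2 X →L[ℂ] Raw.L2 X, (a, b) ∈ tgr c := by
  have h1 : Algebra.adjoin ℂ (Set.range (Raw.tr : G → (Raw.L2 G →L[ℂ] Raw.L2 G))) ≤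
      (Raw.T G G).range := by
    refine Algebra.adjoin_le ?_
    rintro _ ⟨g, rfl⟩
    refine ⟨MonoidAlgebra.single g 1, ?_⟩
    show Raw.T G G _ = _
    rw [Raw.T, MonoidAlgebra.lift_single, one_smul]
    rfl
  have h2 : a ∈ closure ((Raw.T G G).range : Set (Raw.L2 G →L[ℂ] Raw.L2 G)) := closure_mono h1 ha
  obtain ⟨u, hu, hlim⟩ := mem_closure_iff_seq_limit.1 h2
  choose f hf using hu
  have hf' : ∀ n, Raw.T G G (f n) = u n := hf
  have hcau : CauchySeq fun n => TT c (f n) := by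
    have h3 := hlim.cauchySeq
    rw [Metric.cauchySeq_iff] at h3 ⊢
    intro ε hε
    obtain ⟨N, hN⟩ := h3 ε hε
    refine ⟨N, fun m hm n hn => lt_of_le_of_lt ?_ (hN m hm n hn)⟩
    rw [dist_eq_norm, dist_eq_norm, ← hf', ← hf', ← map_sub, ← map_sub]
    exact norm_TT_le c hst _
  obtain ⟨b, hb⟩ := cauchySeq_tendsto_of_complete hcau
  refine ⟨b, mem_closure_of_tendsto (hlim.prodMk_nhds hb) (Filter.Eventually.of_forall fun n => ?_)⟩
  refine ⟨f n, ?_⟩
  show (Raw.T G G (f n), TT c (f n)) = _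
  rw [hf']

/-- the reduced group C*-algebra acts on the twisted `ℓ²(X)`. -/
noncomputable def trep (hst : ∀ x : X, Amenable (MulAction.stabilizer G x)) :
    Raw.Cr G →+* (Raw.L2 X →L[ℂ] Raw.L2 X) where
  toFun a := (tgr_exists c hst a.2).choose
  map_one' := tgr_unique c hst (tgr_exists c hst (1 : Raw.Cr G).2).choose_spec
    (Subalgebra.one_mem (tgr c))
  map_zero' := tgr_unique c hst (tgr_exists c hst (0 : Raw.Cr G).2).choose_spec
    (Subalgebra.zero_mem (tgr c))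
  map_mul' a b := tgr_unique c hst (tgr_exists c hst (a * b).2).choose_spec
    (Subalgebra.mul_mem (tgr c) (tgr_exists c hst a.2).choose_spec
      (tgr_exists c hst b.2).choose_spec)
  map_add' a b := tgr_unique c hst (tgr_exists c hst (a + b).2).choose_spec
    (Subalgebra.add_mem (tgr c) (tgr_exists c hst a.2).choose_spec
      (tgr_exists c hst b.2).choose_spec)

lemma trep_lam (hst : ∀ x : X, Amenable (MulAction.stabilizer G x)) (g : G) :
    trep c hst (Raw.lam G g) = rho c g :=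
  tgr_unique c hst (tgr_exists c hst (Raw.lam G g).2).choose_spec (tgr_rho c g)

/-- twisted monomial representations are tempered when the stabilizers are amenable. -/
theorem exists_twisted_rep (hst : ∀ x : X, Amenable (MulAction.stabilizer G x)) (c : UCoc G X) :
    ∃ R : Cr G →+* (Raw.L2 X →L[ℂ] Raw.L2 X),
      ∀ (g : G) (ξ : Raw.L2 X) (x : X), R (lam G g) ξ x = c.σ g x * ξ (g⁻¹ • x) := by
  refine ⟨(trep c hst).comp (toRaw G), fun g ξ x => ?_⟩
  show trep c hst (toRaw G (lam G g)) ξ x = _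
  rw [toRaw_lam, trep_lam, rho_apply]

end Pool.Agent.LibCod83
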