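import Pool.Agent.LibCod83.Twist

/-!
Vanishing of the cohomology with coefficients in twisted monomial representations.
-/

set_option autoImplicit false

namespace Pool.Agent.LibCod83

open Pool.Agent.LibZIS

universe u v w

variable {G : Type u} [Group G] {E : Type v} [TopologicalSpace E] [PathConnectedSpace E]
  [MulAction G E] [ContinuousConstSMul G E] {X : Type w} [MulAction G X]

/-- cocycles with values in a twisted `ℓ²(X)` are coboundaries when `H₀ = H₁ = 0`. -/
theorem twisted_coboundary (hfree : ∀ (g : G) (e : E), g • e = e → g = 1)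
    (hst : ∀ x : X, Amenable (MulAction.stabilizer G x)) (c : UCoc G X)
    (h0 : ¬ Nontrivial (Hgy (lam G) E 0)) (h1 : ¬ Nontrivial (Hgy (lam G) E 1))
    (b : G → Raw.L2 X)
    (hb : ∀ (g h : G) (x : X), b (g * h) x = b g x + c.σ g x * b h (g⁻¹ • x)) :
    ∃ v : Raw.L2 X, ∀ (g : G) (x : X), b g x = c.σ g x * v (g⁻¹ • x) - v x := by
  obtain ⟨R, hR⟩ := exists_twisted_rep hst c
  let _ : Module (Cr G) (Raw.L2 X) := Module.compHom (Raw.L2 X) R
  have hsm : ∀ (g : G) (v : Raw.L2 X), lam G g • v = R (lam G g) v := fun g v => rfl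
  obtain ⟨v, hv⟩ := coboundary_of_trivial (lam G) hfree h0 h1 b (fun g h => by
    ext x
    rw [hsm, lp.coeFn_add, Pi.add_apply, hR, hb])
  refine ⟨v, fun g x => ?_⟩
  have h2 := congrArg (fun ξ : Raw.L2 X => (ξ : ∀ _ : X, ℂ) x) (hv g)
  simp only [lp.coeFn_sub, Pi.sub_apply] at h2
  rw [hsm, hR] at h2
  exact h2

/-- two-cocycles with values in `ℓ²(X)` are coboundaries when `H₀ = H₁ = H₂ = 0`. -/
theorem coboundary_two (hfree : ∀ (g : G) (e : E), g • e = e → g = 1) (hE : H1Zero E)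
    (hst : ∀ x : X, Amenable (MulAction.stabilizer G x))
    (h0 : ¬ Nontrivial (Hgy (lam G) E 0)) (h1 : ¬ Nontrivial (Hgy (lam G) E 1))
    (h2 : ¬ Nontrivial (Hgy (lam G) E 2))
    (b : G → G → Raw.L2 X)
    (hb : ∀ (g h k : G) (x : X),
      b h k (g⁻¹ • x) - b (g * h) k x + b g (h * k) x - b g h x = 0) :
    ∃ c : G → Raw.L2 X, ∀ (g h : G) (x : X), b g h x = c h (g⁻¹ • x) - c (g * h) x + c g x := by
  let _ : Module (Cr G) (Raw.L2 X) :=
    Module.compHom (Raw.L2 X) ((Raw.rep (X := X) hst).comp (toRaw G))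
  have hsm : ∀ (g : G) (v : Raw.L2 X), lam G g • v = Raw.tr g v := by
    intro g v
    show Raw.rep hst (toRaw G (lam G g)) v = Raw.tr g v
    rw [toRaw_lam, Raw.rep_lam]
  obtain ⟨c, hc⟩ := coboundary2_of_trivial (lam G) hfree hE h0 h1 h2 b (fun g h k => by
    ext x
    rw [hsm, lp.coeFn_sub, lp.coeFn_add, lp.coeFn_sub, Pi.sub_apply, Pi.add_apply, Pi.sub_apply,
      Raw.tr_apply, hb]
    rfl)
  refine ⟨c, fun g h x => ?_⟩
  have h3 := congrArg (fun ξ : Raw.L2 X => (ξ : ∀ _ : X, ℂ) x) (hc g h)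
  simp only [lp.coeFn_sub, lp.coeFn_add, Pi.sub_apply, Pi.add_apply] at h3
  rw [hsm, Raw.tr_apply] at h3
  exact h3

/-- modules over the coefficients have no invariant vectors when `H₀ = 0`. -/
lemma invariant_zero_of_module {E : Type v} [TopologicalSpace E] [MulAction G E]
    [ContinuousConstSMul G E] {A : Type*} [Ring A] (ρ : G →* A) (x0 : E)
    (h0 : ¬ Nontrivial (Hgy ρ E 0)) {V : Type*} [AddCommGroup V] [Module A V] (v : V)
    (hv : ∀ g : G, ρ g • v = v) : v = 0 := by
  rw [not_nontrivial_iff_subsingleton] at h0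
  have H0 : ∀ x : Ch ρ E 0, x ∈ (dif ρ E 0).range := by
    intro x
    have : (QuotientAddGroup.mk x : Ch ρ E 0 ⧸ (dif ρ E 0).range) =
      QuotientAddGroup.mk 0 := h0.elim _ _
    rw [QuotientAddGroup.eq] at this
    simpa using this
  let F : (Sing 0 E →₀ A) →+ V :=
    Finsupp.liftAddHom fun _ => (AddMonoidHom.flip (smulAddHom A V) v)
  have hF : ∀ (s : Sing 0 E) (m : A), F (Finsupp.single s m) = m • v := by
    intro s m
    simp [F]
  have hrel : ∀ z ∈ rel ρ E 0, F z = 0 := by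
    have : rel ρ E 0 ≤ F.ker := by
      rw [rel, AddSubgroup.closure_le]
      rintro _ ⟨g, s, m, rfl⟩
      show F _ = 0
      rw [map_sub, hF, hF, mul_smul, hv, sub_self]
    exact this
  have hbd : ∀ z : Sing 1 E →₀ A, F (bd A E 0 z) = 0 := by
    intro z
    induction z using Finsupp.induction_linear with
    | zero => simp
    | add x y hx hy => rw [map_add, map_add, hx, hy, add_zero]
    | single s m =>
      rw [bd_single, Fin.sum_univ_two, map_add, map_zsmul, map_zsmul, hF, hF]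
      simp
  obtain ⟨y, hy⟩ := H0 (cls ρ 0 (Finsupp.single (pt x0) (1 : A)))
  obtain ⟨z, rfl⟩ := cls_surj ρ 1 y
  rw [dif_cls] at hy
  have h2 : -bd A E 0 z + Finsupp.single (pt x0) (1 : A) ∈ rel ρ E 0 := by
    rw [← QuotientAddGroup.eq]
    exact hy
  have h3 := hrel _ h2
  rw [map_add, map_neg, hbd, neg_zero, zero_add, hF, one_smul] at h3
  exact h3

/-- there are no invariant vectors when `H₀ = 0`. -/
theorem invariant_zero
    (hst : ∀ x : X, Amenable (MulAction.stabilizer G x))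
    (h0 : ¬ Nontrivial (Hgy (lam G) E 0)) (v : Raw.L2 X)
    (hv : ∀ (g : G) (x : X), v (g⁻¹ • x) = v x) : v = 0 := by
  let _ : Module (Cr G) (Raw.L2 X) :=
    Module.compHom (Raw.L2 X) ((Raw.rep (X := X) hst).comp (toRaw G))
  obtain ⟨x0⟩ : Nonempty E := inferInstance
  refine invariant_zero_of_module (lam G) x0 h0 v fun g => ?_
  have h1 : lam G g • v = Raw.tr g v := by
    show Raw.rep hst (toRaw G (lam G g)) v = Raw.tr g v
    rw [toRaw_lam, Raw.rep_lam]
  rw [h1]
  ext x
  rw [Raw.tr_apply, hv]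

end Pool.Agent.LibCod83
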